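import Pool.Agent.Helper95.BWD.Club

/-!
# Project BWD (MP_54d188_lc): the weak diamond for `K`-Suslin sets and a weak form of it
-/

set_option autoImplicit false

open Cardinal Set

namespace Pool.Agent.Helper95.BWD

/-- the weak diamond for `K`-Suslin sets on the set `S` -/
def WDK (K : Type) (S : Set Om) : Prop :=
  ∀ B : ∀ d : Om, Set (Set.Iio d → Bool), (∀ d, SuslinOver K (B d)) →
    ∃ g : Om → Bool, ∀ h : Om → Bool,
      Stationary {d | d ∈ S ∧ ((fun x : Set.Iio d => h x) ∈ B d ↔ g d = true)}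

/-- for all `K`-Suslin sets `V d` of reals the map `c ↦ {d | c ∈ V d}` is not onto the power set of `ω₁`, in a strong sense -/
def NotOnto (K : Type) : Prop :=
  ∀ V : Om → Set (ℕ → Bool), (∀ d, SuslinOver K (V d)) →
    ∃ X : Set Om, ∀ c : ℕ → Bool, Stationary {d | c ∈ V d ↔ d ∈ X}

/-- the empty set is `K`-Suslin -/
theorem suslin_empty (K : Type) {Z : Type} [TopologicalSpace Z] : SuslinOver K (∅ : Set Z) := by
  letI : TopologicalSpace K := ⊥
  refine ⟨∅, isClosed_empty, ?_⟩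
  ext z
  simp

/-- a set given by a closed condition on `(w, z)` is `ω`-Suslin -/
theorem suslin_nat {Z : Type} [TopologicalSpace Z] (R : Set ((ℕ → ℕ) × Z)) (hR : IsClosed R) :
    SuslinOver ℕ {z | ∃ w : ℕ → ℕ, (w, z) ∈ R} :=
  ⟨R, hR, rfl⟩

/-- an analytic set of a Hausdorff space is `ω`-Suslin -/
theorem analytic_suslin {Z : Type} [TopologicalSpace Z] [T2Space Z] (A : Set Z)
    (hA : MeasureTheory.AnalyticSet A) :
    ∃ R : Set ((ℕ → ℕ) × Z), IsClosed R ∧ A = {z | ∃ w : ℕ → ℕ, (w, z) ∈ R} := by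
  rw [MeasureTheory.AnalyticSet] at hA
  rcases hA with rfl | ⟨φ, hφ, rfl⟩
  · refine ⟨∅, isClosed_empty, ?_⟩
    ext z
    simp
  · refine ⟨{p | φ p.1 = p.2}, isClosed_eq (hφ.comp continuous_fst) continuous_snd, ?_⟩
    ext z
    simp

end Pool.Agent.Helper95.BWD
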