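import Pool.Agent.Helper95.BWD.CorDef

/-!
# Project BWD (MP_54d188_lc): unions of `ℵ₁` many `ω`-Suslin sets
-/

set_option autoImplicit false

open Cardinal Set

namespace Pool.Agent.Helper95.BWD

theorem union_closed {K Z : Type} [TopologicalSpace K] [DiscreteTopology K] [TopologicalSpace Z]
    (dec : K → ℕ) (R : K → Set ((ℕ → ℕ) × Z)) (hR : ∀ i, IsClosed (R i)) :
    IsClosed {p : (ℕ → K) × Z | (fun n => dec (p.1 (n + 1)), p.2) ∈ R (p.1 0)} := by
  have hd : Continuous dec := continuous_of_discreteTopology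
  have e : {p : (ℕ → K) × Z | (fun n => dec (p.1 (n + 1)), p.2) ∈ R (p.1 0)}ᶜ =
      ⋃ i, ({p : (ℕ → K) × Z | p.1 0 = i} ∩
        {p : (ℕ → K) × Z | (fun n => dec (p.1 (n + 1)), p.2) ∈ (R i)ᶜ}) := by
    ext p
    simp
  rw [← isOpen_compl_iff, e]
  refine isOpen_iUnion fun i => IsOpen.inter ?_ ?_
  · exact (isOpen_discrete ({i} : Set K)).preimage
      (f := fun p : (ℕ → K) × Z => p.1 0) (by fun_prop)
  · refine (hR i).isOpen_compl.preimage
      (f := fun p : (ℕ → K) × Z => ((fun n => dec (p.1 (n + 1)), p.2) : (ℕ → ℕ) × Z)) ?_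
    refine Continuous.prodMk (continuous_pi fun n => hd.comp ?_) continuous_snd
    fun_prop

theorem union_suslin {Z : Type} [TopologicalSpace Z] (A : Om → Set Z)
    (hA : ∀ i, SuslinOver ℕ (A i)) : SuslinOver Om (⋃ i, A i) := by
  have hA' : ∀ i, ∃ R : Set ((ℕ → ℕ) × Z), IsClosed R ∧ A i = {z | ∃ w, (w, z) ∈ R} := hA
  choose R hR hAR using hA'
  obtain ⟨dec, hdec⟩ : ∃ dec : Om → ℕ, Function.Surjective dec :=
    ⟨_, Function.invFun_surjective (Infinite.natEmbedding Om).injective⟩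
  letI : TopologicalSpace Om := ⊥
  haveI : DiscreteTopology Om := ⟨rfl⟩
  refine ⟨_, union_closed dec R hR, ?_⟩
  ext z
  simp only [Set.mem_iUnion, Set.mem_setOf_eq]
  constructor
  · rintro ⟨i, hi⟩
    rw [hAR i] at hi
    obtain ⟨w, hw⟩ := hi
    choose j hj using fun n => hdec (w n)
    refine ⟨fun n => Nat.casesOn n i j, ?_⟩
    have e : (fun n => dec ((fun n => Nat.casesOn n i j : ℕ → Om) (n + 1))) = w := by
      funext n
      exact hj n
    rw [e]
    exact hw
  · rintro ⟨w, hw⟩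
    refine ⟨w 0, ?_⟩
    rw [hAR]
    exact ⟨_, hw⟩

end Pool.Agent.Helper95.BWD
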