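import Mathlib

/-!
# Project BWD (MP_54d188_lc): preliminaries

The lemmas of this file are taken from the landed file `CofinalityFormula` of helper86 (the same problem): countable ordinals,
the coding of functions `ω₁ → ω₁` by functions `ω₁ → ω`.
-/

set_option autoImplicit false

open Cardinal Set

namespace Pool.Agent.Helper95.BWD

/-- the well-ordered set of countable ordinals (order type `ω₁`) -/
abbrev Om : Type := (ℵ₁ : Cardinal.{0}).ord.ToType

/-- every `g : ω₁ → ω` is exceeded everywhere by some member of `F` -/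
def EverywhereDominating (F : Set (Om → ℕ)) : Prop :=
  ∀ g : Om → ℕ, ∃ f ∈ F, ∀ a, g a < f a

/-- every `g : ω₁ → ω` is exceeded by some member of `F` at all but countably many places -/
def DominatingModCountable (F : Set (Om → ℕ)) : Prop :=
  ∀ g : Om → ℕ, ∃ f ∈ F, {a | f a ≤ g a}.Countable

/-- `C` is a cofinal family in the sets of cardinality at most `ℵ₁` -/
def CofinalFamily {K : Type} (C : Set (Set K)) : Prop :=
  (∀ A ∈ C, #A ≤ ℵ₁) ∧ ∀ S : Set K, #S ≤ ℵ₁ → ∃ A ∈ C, S ⊆ A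

/-- the cofinality of `([K]^{≤ ℵ₁}, ⊆)` -/
noncomputable def cofNum (K : Type) : Cardinal.{0} :=
  sInf {κ | ∃ C : Set (Set K), CofinalFamily C ∧ #C = κ}

/-! ### Preliminaries -/

theorem mk_Om : #Om = ℵ₁ := by
  simp [Om]

theorem countable_Iio (a : Om) : (Set.Iio a).Countable := by
  rw [← le_aleph0_iff_set_countable, ← lt_aleph_one_iff]
  have h := mk_Iio_lt a (by simp [Om])
  rwa [mk_Om] at h

theorem countable_Iic (a : Om) : (Set.Iic a).Countable := by
  rw [← Set.Iio_insert]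
  exact (countable_Iio a).insert a

instance : Uncountable Om := by
  rw [← aleph0_lt_mk_iff, mk_Om]; exact aleph0_lt_aleph_one

instance : Infinite Om := inferInstance

theorem bdd {s : Set Om} (hs : s.Countable) : ∃ b, ∀ x ∈ s, x < b := by
  by_contra hcon
  push Not at hcon
  have hcov : (Set.univ : Set Om) ⊆ ⋃ x ∈ s, Set.Iic x := by
    intro b _
    obtain ⟨x, hx, hbx⟩ := hcon b
    exact Set.mem_biUnion hx hbx
  have : (Set.univ : Set Om).Countable :=
    (hs.biUnion fun x _ => countable_Iic x).mono hcov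
  exact Set.not_countable_univ this

/-- a fixed injection of the initial segment below and including `γ` -/
noncomputable def e (γ : Om) : Om → ℕ :=
  Classical.choose (countable_iff_exists_injOn.1 (countable_Iic γ))

theorem e_injOn (γ : Om) : Set.InjOn (e γ) (Set.Iic γ) :=
  Classical.choose_spec (countable_iff_exists_injOn.1 (countable_Iic γ))

/-- the finite set of `x ≤ γ` with `e γ x < n` -/
def A (γ : Om) (n : ℕ) : Set Om := {x | x ≤ γ ∧ e γ x < n}

theorem A_finite (γ : Om) (n : ℕ) : (A γ n).Finite := by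
  apply Set.Finite.of_finite_image (f := e γ)
  · apply (Set.finite_Iio n).subset
    rintro _ ⟨x, hx, rfl⟩
    exact hx.2
  · exact (e_injOn γ).mono fun x hx => hx.1

/-- a set of functions which are pairwise different from some point on and which go through
finite levels (each from some point on) is finite -/
theorem finite_of_levels {I K : Type*} (b : I → Om → K)
    (hb : ∀ i j, i ≠ j → ∃ a, ∀ c, a ≤ c → b i c ≠ b j c) (h : Om → Set K)
    (hfin : ∀ a, (h a).Finite) (S : Set I)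
    (hS : ∀ i ∈ S, ∃ a, ∀ c, a ≤ c → b i c ∈ h c) : S.Finite := by
  by_contra hinf
  have hinf : S.Infinite := hinf
  let u := hinf.natEmbedding S
  have hpair : ∀ p : ℕ × ℕ, ∃ a, (p.1 ≠ p.2 → ∀ c, a ≤ c → b (u p.1) c ≠ b (u p.2) c) := by
    intro p
    by_cases hp : p.1 = p.2
    · exact ⟨Classical.arbitrary Om, fun h => absurd hp h⟩
    · obtain ⟨a, ha⟩ := hb (u p.1) (u p.2) (fun hh => hp (u.injective (Subtype.ext hh)))
      exact ⟨a, fun _ => ha⟩
  choose q hq using hpair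
  have hS' : ∀ n : ℕ, ∃ a, ∀ c, a ≤ c → b (u n) c ∈ h c := fun n => hS (u n) (u n).2
  choose th hth using hS'
  obtain ⟨g, hg⟩ := bdd (s := Set.range q ∪ Set.range th)
    ((Set.countable_range q).union (Set.countable_range _))
  have hinj : Function.Injective (fun n : ℕ => b (u n) g) := by
    intro m n hmn
    by_contra hne
    exact hq (m, n) hne g (hg _ (Or.inl ⟨(m, n), rfl⟩)).le hmn
  have hsub : Set.range (fun n : ℕ => b (u n) g) ⊆ h g := by
    rintro _ ⟨n, rfl⟩
    exact hth n g (hg _ (Or.inr ⟨n, rfl⟩)).le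
  exact Set.infinite_range_of_injective hinj ((hfin g).subset hsub)

/-- the set of `c` which belong to `A γ (f γ)` from some point on -/
def E (f : Om → ℕ) : Set Om := {c | ∃ a, ∀ γ, a ≤ γ → c ∈ A γ (f γ)}

theorem E_finite (f : Om → ℕ) : (E f).Finite :=
  finite_of_levels (fun c (_ : Om) => c) (fun i _ hij => ⟨i, fun _ _ => hij⟩)
    (fun γ => A γ (f γ)) (fun γ => A_finite γ (f γ)) (E f) (fun _ hi => hi)

theorem exists_G (f : Om → ℕ) (c a : Om) :
    ∃ γ, c ∉ E f → a ≤ γ ∧ c ∉ A γ (f γ) := by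
  by_cases hc : c ∈ E f
  · exact ⟨a, fun h => absurd hc h⟩
  · have hc' : ¬ ∃ a, ∀ γ, a ≤ γ → c ∈ A γ (f γ) := hc
    push Not at hc'
    obtain ⟨γ, h1, h2⟩ := hc' a
    exact ⟨γ, fun _ => ⟨h1, h2⟩⟩

/-- a place above `a` where `c` does not belong to `A γ (f γ)` -/
noncomputable def G (f : Om → ℕ) (c a : Om) : Om := Classical.choose (exists_G f c a)

theorem G_spec (f : Om → ℕ) (c a : Om) (hc : c ∉ E f) :
    a ≤ G f c a ∧ c ∉ A (G f c a) (f (G f c a)) :=
  Classical.choose_spec (exists_G f c a) hc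

theorem exists_B (f : Om → ℕ) (η a : Om) : ∃ b, η ≤ b ∧ ∀ c, c ≤ a → G f c a ≤ b := by
  obtain ⟨b, hb⟩ := bdd (s := insert η ((fun c => G f c a) '' Set.Iic a))
    (((countable_Iic a).image _).insert η)
  exact ⟨b, (hb η (Set.mem_insert _ _)).le,
    fun c hc => (hb _ (Set.mem_insert_of_mem _ ⟨c, hc, rfl⟩)).le⟩

/-- the function `ω₁ → ω₁` computed from `f : ω₁ → ω` and the ordinal `η` -/
noncomputable def B (f : Om → ℕ) (η a : Om) : Om := Classical.choose (exists_B f η a)

theorem B_spec (f : Om → ℕ) (η a : Om) : η ≤ B f η a ∧ ∀ c, c ≤ a → G f c a ≤ B f η a :=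
  Classical.choose_spec (exists_B f η a)

theorem wf : WellFounded ((· < ·) : Om → Om → Prop) := wellFounded_lt

/-- closure points of `x` are unbounded -/
theorem closed_unbounded (x : Om → Om) (a : Om) : ∃ d, a < d ∧ ∀ c, c < d → x c < d := by
  have hstep : ∀ b : Om, ∃ b', b < b' ∧ ∀ c, c ≤ b → x c < b' := by
    intro b
    obtain ⟨b', hb'⟩ := bdd (s := insert b (x '' Set.Iic b)) (((countable_Iic b).image x).insert b)
    exact ⟨b', hb' b (Set.mem_insert _ _), fun c hc => hb' _ (Set.mem_insert_of_mem _ ⟨c, hc, rfl⟩)⟩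
  choose s hs1 hs2 using hstep
  let t : ℕ → Om := fun n => Nat.rec a (fun _ b => s b) n
  have hts : ∀ n, t (n + 1) = s (t n) := fun n => rfl
  obtain ⟨d0, hd0⟩ := bdd (s := Set.range t) (Set.countable_range t)
  have hne : {d : Om | ∀ n, t n < d}.Nonempty := ⟨d0, fun n => hd0 _ ⟨n, rfl⟩⟩
  let d := wf.min _ hne
  have hd : ∀ n, t n < d := wf.min_mem _ hne
  refine ⟨d, hd 0, ?_⟩
  intro c hc
  have : ¬ ∀ n, t n < c := fun h => wf.not_lt_min {d : Om | ∀ n, t n < d} h hc
  push Not at this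
  obtain ⟨n, hn⟩ := this
  calc x c < s (t n) := hs2 (t n) c hn
    _ = t (n + 1) := (hts n).symm
    _ < d := hd (n + 1)

/-- **domination of `ω₁ → ω₁`** -/
theorem dominate (F : Set (Om → ℕ)) (hF : DominatingModCountable F) (x : Om → Om) :
    ∃ f ∈ F, ∃ η, ∀ a, x a < B f η a := by
  classical
  let C : Set Om := {d | ∀ c, c < d → x c < d}
  -- the code
  have hmne : ∀ γ : Om, {μ : Om | ∀ d ∈ C, d ≤ γ → d ≤ μ}.Nonempty := fun γ => ⟨γ, fun d _ h => h⟩
  let m : Om → Om := fun γ => wf.min _ (hmne γ)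
  have hm1 : ∀ γ, ∀ d ∈ C, d ≤ γ → d ≤ m γ := fun γ => wf.min_mem _ (hmne γ)
  have hm2 : ∀ γ μ, (∀ d ∈ C, d ≤ γ → d ≤ μ) → m γ ≤ μ := fun γ μ h =>
    not_lt.1 (wf.not_lt_min {μ : Om | ∀ d ∈ C, d ≤ γ → d ≤ μ} h)
  have hmle : ∀ γ, m γ ≤ γ := fun γ => hm2 γ γ (fun d _ h => h)
  obtain ⟨f, hfF, hf⟩ := hF (fun γ => e γ (m γ))
  obtain ⟨γ₁, hγ₁⟩ := bdd hf
  have hmA : ∀ γ, γ₁ ≤ γ → m γ ∈ A γ (f γ) := fun γ hγ => ⟨hmle γ, by
    by_contra hcon
    exact absurd (hγ₁ γ (not_lt.1 hcon)) (not_lt.2 hγ)⟩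
  -- the countable exceptional set
  have hEc : (x '' ({a | m a ∈ E f} ∪ Set.Iio γ₁)).Countable := by
    apply Set.Countable.image
    refine Set.Countable.union ?_ (countable_Iio _)
    have : {a | m a ∈ E f} = ⋃ c ∈ E f, {a | m a = c} := by
      ext a; simp
    rw [this]
    refine (E_finite f).countable.biUnion fun c _ => ?_
    obtain ⟨d, hcd, hd⟩ := closed_unbounded x c
    refine (countable_Iio d).mono ?_
    intro a ha
    by_contra hda
    have hda' : d ≤ a := not_lt.1 hda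
    have h3 := hm1 a d hd hda'
    have ha' : m a = c := ha
    rw [ha'] at h3
    exact absurd hcd (not_lt.2 h3)
  obtain ⟨η, hη⟩ := bdd hEc
  refine ⟨f, hfF, η, fun a => ?_⟩
  by_cases hE : a ∈ {a | m a ∈ E f} ∪ Set.Iio γ₁
  · exact lt_of_lt_of_le (hη _ ⟨a, hE, rfl⟩) (B_spec f η a).1
  · have hE1 : m a ∉ E f := fun h => hE (Or.inl h)
    have hE2 : γ₁ ≤ a := not_lt.1 fun h => hE (Or.inr h)
    -- the next closure point
    have hne : {d : Om | a < d ∧ d ∈ C}.Nonempty := by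
      obtain ⟨d, h1, h2⟩ := closed_unbounded x a
      exact ⟨d, h1, h2⟩
    let d := wf.min _ hne
    have hd : a < d ∧ d ∈ C := wf.min_mem _ hne
    have hdmin : ∀ c, a < c → c ∈ C → d ≤ c := fun c h1 h2 =>
      not_lt.1 (wf.not_lt_min {d : Om | a < d ∧ d ∈ C} ⟨h1, h2⟩)
    have hconst : ∀ γ, a ≤ γ → γ < d → m γ = m a := by
      intro γ h1 h2
      have key : ∀ δ ∈ C, δ ≤ γ → δ ≤ a := by
        intro δ hδ hle
        by_contra hlt
        exact absurd (lt_of_le_of_lt (le_trans (hdmin δ (not_le.1 hlt) hδ) hle) h2) (lt_irrefl _)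
      apply le_antisymm
      · exact hm2 γ (m a) fun δ hδ hle => hm1 a δ hδ (key δ hδ hle)
      · exact hm2 a (m γ) fun δ hδ hle => hm1 γ δ hδ (le_trans hle h1)
    have hG := G_spec f (m a) a hE1
    have hdG : d ≤ G f (m a) a := by
      by_contra hlt
      have hlt' := not_le.1 hlt
      apply hG.2
      have := hmA (G f (m a) a) (hE2.trans hG.1)
      rwa [hconst _ hG.1 hlt'] at this
    calc x a < d := hd.2 a hd.1
      _ ≤ G f (m a) a := hdG
      _ ≤ B f η a := (B_spec f η a).2 (m a) (hmle a)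

/-- a family dominating modulo countable sets has at least `ℵ₂` members -/
theorem aleph_one_lt (F : Set (Om → ℕ)) (hF : DominatingModCountable F) : ℵ₁ < #F := by
  by_contra hcon
  have hle : #F ≤ ℵ₁ := not_lt.1 hcon
  have h1 : #(F × Om) ≤ #Om := by
    rw [mk_prod, lift_id, lift_id, mk_Om]
    calc #F * ℵ₁ ≤ ℵ₁ * ℵ₁ := by gcongr
      _ = ℵ₁ := mul_eq_self aleph0_lt_aleph_one.le
  obtain ⟨φ⟩ := h1
  have hx : ∀ a : Om, ∃ b, ∀ p : F × Om, φ p ≤ a → B p.1 p.2 a < b := by
    intro a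
    obtain ⟨b, hb⟩ := bdd (s := (fun p : F × Om => B p.1 p.2 a) '' {p | φ p ≤ a}) (by
      apply Set.Countable.image
      exact (countable_Iic a).preimage φ.injective)
    exact ⟨b, fun p hp => hb _ ⟨p, hp, rfl⟩⟩
  choose x hx using hx
  obtain ⟨f, hf, η, h⟩ := dominate F hF x
  have h2 := hx (φ (⟨f, hf⟩, η)) (⟨f, hf⟩, η) le_rfl
  exact absurd (h (φ (⟨f, hf⟩, η))) (not_lt.2 h2.le)

theorem mod_of_everywhere {F : Set (Om → ℕ)} (hF : EverywhereDominating F) :
    DominatingModCountable F := by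
  intro g
  obtain ⟨f, hf, h⟩ := hF g
  refine ⟨f, hf, ?_⟩
  have : {a | f a ≤ g a} = ∅ := by
    ext a
    simp only [Set.mem_ofPred_eq, Set.mem_empty_iff_false, iff_false, not_le]
    exact h a
  rw [this]; exact Set.countable_empty

theorem cofinal_all (K : Type) : CofinalFamily ({A | #A ≤ ℵ₁} : Set (Set K)) :=
  ⟨fun _ h => h, fun S hS => ⟨S, hS, subset_rfl⟩⟩

theorem cofNum_mem (K : Type) : ∃ C : Set (Set K), CofinalFamily C ∧ #C = cofNum K :=
  csInf_mem (s := {κ | ∃ C : Set (Set K), CofinalFamily C ∧ #C = κ})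
    ⟨_, _, cofinal_all K, rfl⟩

theorem cofNum_le {K : Type} {C : Set (Set K)} (hC : CofinalFamily C) : cofNum K ≤ #C :=
  csInf_le' ⟨C, hC, rfl⟩

theorem cofNum_small (K : Type) (hK : #K ≤ ℵ₁) : cofNum K ≤ 1 := by
  refine (cofNum_le (C := {Set.univ}) ⟨?_, fun S _ => ⟨Set.univ, rfl, Set.subset_univ S⟩⟩).trans ?_
  · intro A hA
    rw [Set.mem_singleton_iff.1 hA, mk_univ]
    exact hK
  · simp

end Pool.Agent.Helper95.BWD
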