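import Pool.Agent.Helper95.BWD.CorDef

/-!
# BWD-Baum: two `ℵ₁`-dense sets of reals which are not isomorphic (Baumgartner's axiom fails)

Step 1 (`baum_reals`): there are `y : Om ⊕ Om → ℝ` whose values are pairwise inequivalent modulo `ℚ`: the quotient of `ℝ` by the rational
numbers (setoid `s - t ∈ range (Rat.cast)`, or additive subgroup `(Rat.castHom ℝ).range`/`AddMonoidHom.range`) has countable classes, so its
cardinality is at least `ℵ₁` (otherwise `ℝ` would be a countable union of countable sets: `#ℝ ≤ #quotient * ℵ₀`), and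
`#(Om ⊕ Om) = ℵ₁` (`mk_Om`). Injection into the quotient, then `Quotient.out`.
Step 2: `X₀ = {y (inl i) + q | i : Om, q : ℚ}`, `x i = y (inr i)`. `x` is injective with values outside `X₀`. For `a < b'`: `#(X₀ ∩ Ioo a b') = ℵ₁` (for
each `i` choose `q i` with `y (inl i) + q i ∈ Ioo a b'`; this is an injection of `Om`; upper bound `#X₀ ≤ #(Om × ℚ) = ℵ₁`). So every `A` with `X₀ ⊆ A ⊆ X₀ ∪ range x`
is `ℵ₁`-dense.
Step 3: let `B = X₀ ∪ range x`, `b : Om → ℝ` with range `B` (`#B = ℵ₁`, nonempty). `h` for `x, b` gives `X : Set Om`. `A = X₀ ∪ x '' X`. Suppose `f : A ≃o B`. Put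
`G = {(s, t) | ∀ a : A, (a < s → f a ≤ t) ∧ (s < a → t ≤ f a)}`, closed (for each `a` : `{s ≤ a} ∪ {f a ≤ t}` and `{a ≤ s} ∪ {t ≤ f a}`). Claim:
`d ∈ X ↔ ∃ i, (x d, b i) ∈ G` (contradiction with `h`). (→) `x d ∈ A`, `b i = f (x d)`. (←) let `t = b i ∈ B`, `t = f a` with `a : A`; if `a < x d` there is
`a' ∈ A` with `a < a' < x d` (`A` is dense), `f a' ≤ t = f a`, contradiction with `f a < f a'`; if `x d < a` similarly; so `a = x d ∈ A`, hence
(`x d ∉ X₀`, `x` injective) `d ∈ X`.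
-/

set_option autoImplicit false

open Cardinal Set

namespace Pool.Agent.Helper95.BWD

private theorem Baum_reals : ∃ y : Om ⊕ Om → ℝ, ∀ s t, s ≠ t → ∀ q : ℚ, y s - y t ≠ (q : ℝ) := by
  set S : AddSubgroup ℝ := ((Rat.castHom ℝ : ℚ →+* ℝ) : ℚ →+ ℝ).range with hS
  have hSc : #S ≤ ℵ₀ := by
    have : Function.Surjective ((Rat.castHom ℝ : ℚ →+* ℝ) : ℚ →+ ℝ).rangeRestrict :=
      AddMonoidHom.rangeRestrict_surjective _
    exact (mk_le_of_surjective this).trans mk_le_aleph0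
  have hQ : (ℵ₁ : Cardinal.{0}) ≤ #(ℝ ⧸ S) := by
    by_contra hcon
    have h1 : #(ℝ ⧸ S) ≤ ℵ₀ := by
      rw [not_le, lt_aleph_one_iff] at hcon
      exact hcon
    have h2 : #ℝ = #((ℝ ⧸ S) × S) := mk_congr AddSubgroup.addGroupEquivQuotientProdAddSubgroup
    rw [mk_prod, lift_id, lift_id, mk_real] at h2
    have h3 : 𝔠 ≤ ℵ₀ := by
      rw [h2]
      calc #(ℝ ⧸ S) * #S ≤ ℵ₀ * ℵ₀ := mul_le_mul' h1 hSc
        _ = ℵ₀ := aleph0_mul_aleph0
    exact absurd h3 (not_le.2 aleph0_lt_continuum)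
  have hcard : #(Om ⊕ Om) ≤ #(ℝ ⧸ S) := by
    rw [mk_sum, lift_id, mk_Om]
    exact (add_eq_self aleph0_lt_aleph_one.le).le.trans hQ
  obtain ⟨φ⟩ := hcard
  refine ⟨fun s => Quotient.out (φ s), fun s t hst q hq => hst ?_⟩
  apply φ.injective
  have h1 : ((Quotient.out (φ s) : ℝ) : ℝ ⧸ S) = φ s := QuotientAddGroup.out_eq' _
  have h2 : ((Quotient.out (φ t) : ℝ) : ℝ ⧸ S) = φ t := QuotientAddGroup.out_eq' _
  rw [← h1, ← h2]
  symm
  rw [QuotientAddGroup.eq]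
  refine AddMonoidHom.mem_range.2 ⟨q, ?_⟩
  rw [← sub_eq_neg_add]
  exact hq.symm

theorem baum (h : ∀ x b : Om → ℝ, ∃ X : Set Om, ∀ G : Set (ℝ × ℝ), IsClosed G →
      X ≠ {d | ∃ i, (x d, b i) ∈ G}) :
    ∃ A B : Set ℝ, (∀ a b : ℝ, a < b → #(A ∩ Set.Ioo a b : Set ℝ) = ℵ₁) ∧
      (∀ a b : ℝ, a < b → #(B ∩ Set.Ioo a b : Set ℝ) = ℵ₁) ∧ IsEmpty (A ≃o B) := by
  obtain ⟨y, hy⟩ := Baum_reals
  set X₀ : Set ℝ := Set.range (fun p : Om × ℚ => y (Sum.inl p.1) + (p.2 : ℝ)) with hX₀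
  set x : Om → ℝ := fun i => y (Sum.inr i) with hx
  have hxinj : Function.Injective x := by
    intro i j hij
    by_contra hne
    refine hy (Sum.inr i) (Sum.inr j) (fun h => hne (Sum.inr_injective h)) 0 ?_
    have : y (Sum.inr i) = y (Sum.inr j) := hij
    rw [this]; simp
  have hxX₀ : ∀ i, x i ∉ X₀ := by
    rintro i ⟨⟨j, q⟩, hjq⟩
    refine hy (Sum.inr i) (Sum.inl j) (by simp) q ?_
    have h1 : y (Sum.inl j) + (q : ℝ) = y (Sum.inr i) := hjq
    rw [← h1]; ring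
  have hex : ∀ (i : Om) (a b : ℝ), a < b → ∃ q : ℚ, a < y (Sum.inl i) + (q : ℝ) ∧
      y (Sum.inl i) + (q : ℝ) < b := by
    intro i a b hab
    obtain ⟨q, h1, h2⟩ := exists_rat_btwn (show a - y (Sum.inl i) < b - y (Sum.inl i) by linarith)
    exact ⟨q, by linarith, by linarith⟩
  have hcX₀ : #X₀ ≤ ℵ₁ := by
    refine (mk_range_le).trans ?_
    rw [mk_prod, lift_id, lift_id, mk_Om]
    exact (mul_eq_left aleph0_lt_aleph_one.le (mk_le_aleph0.trans aleph0_lt_aleph_one.le)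
      (mk_ne_zero ℚ)).le
  have hdense : ∀ A : Set ℝ, X₀ ⊆ A → #A ≤ ℵ₁ → ∀ a b : ℝ, a < b →
      #(A ∩ Set.Ioo a b : Set ℝ) = ℵ₁ := by
    intro A hA hcA a b hab
    apply le_antisymm
    · exact (mk_le_mk_of_subset Set.inter_subset_left).trans hcA
    · choose q hq1 hq2 using fun i => hex i a b hab
      rw [← mk_Om]
      refine mk_le_of_injective (f := fun i : Om => (⟨y (Sum.inl i) + (q i : ℝ),
        hA ⟨(i, q i), rfl⟩, hq1 i, hq2 i⟩ : (A ∩ Set.Ioo a b : Set ℝ))) ?_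
      intro i j hij
      by_contra hne
      have h1 : y (Sum.inl i) + (q i : ℝ) = y (Sum.inl j) + (q j : ℝ) := congrArg Subtype.val hij
      refine hy (Sum.inl i) (Sum.inl j) (fun h => hne (Sum.inl_injective h)) (q j - q i) ?_
      push_cast
      linarith
  set B : Set ℝ := X₀ ∪ Set.range x with hB
  have hsum : (ℵ₁ : Cardinal.{0}) + ℵ₁ ≤ ℵ₁ := (add_eq_self aleph0_lt_aleph_one.le).le
  have hcB : #B ≤ ℵ₁ := by
    refine (mk_union_le _ _).trans (le_trans (add_le_add hcX₀ ?_) hsum)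
    exact mk_range_le.trans mk_Om.le
  have hBne : Nonempty B := ⟨⟨x (Classical.arbitrary Om), Or.inr ⟨_, rfl⟩⟩⟩
  obtain ⟨g⟩ : #B ≤ #Om := by rw [mk_Om]; exact hcB
  set b : Om → ℝ := fun i => ((Function.invFun g i : B) : ℝ) with hb
  have hbB : ∀ i, b i ∈ B := fun i => (Function.invFun g i).2
  have hbsurj : ∀ t ∈ B, ∃ i, b i = t := by
    intro t ht
    obtain ⟨i, hi⟩ := Function.invFun_surjective g.injective ⟨t, ht⟩
    exact ⟨i, congrArg Subtype.val hi⟩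
  obtain ⟨X, hX⟩ := h x b
  set A : Set ℝ := X₀ ∪ x '' X with hA
  have hcA : #A ≤ ℵ₁ := by
    refine (mk_le_mk_of_subset ?_).trans hcB
    exact Set.union_subset_union_right _ (Set.image_subset_range _ _)
  refine ⟨A, B, hdense A Set.subset_union_left hcA, hdense B Set.subset_union_left hcB,
    ⟨fun f => ?_⟩⟩
  have hG : IsClosed {p : ℝ × ℝ | ∀ a : A, ((a : ℝ) < p.1 → (f a : ℝ) ≤ p.2) ∧
      (p.1 < a → p.2 ≤ f a)} := by
    have e1 : {p : ℝ × ℝ | ∀ a : A, ((a : ℝ) < p.1 → (f a : ℝ) ≤ p.2) ∧ (p.1 < a → p.2 ≤ f a)} =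
        ⋂ a : A, (({p : ℝ × ℝ | p.1 ≤ (a : ℝ)} ∪ {p : ℝ × ℝ | (f a : ℝ) ≤ p.2}) ∩
          ({p : ℝ × ℝ | (a : ℝ) ≤ p.1} ∪ {p : ℝ × ℝ | p.2 ≤ (f a : ℝ)})) := by
      ext p
      simp only [Set.mem_ofPred_eq, Set.mem_iInter, Set.mem_inter_iff, Set.mem_union]
      refine forall_congr' fun a => and_congr ?_ ?_
      · rw [or_iff_not_imp_left, not_le]
      · rw [or_iff_not_imp_left, not_le]
    rw [e1]
    refine isClosed_iInter fun a => IsClosed.inter (IsClosed.union ?_ ?_) (IsClosed.union ?_ ?_)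
    · exact isClosed_le continuous_fst continuous_const
    · exact isClosed_le continuous_const continuous_snd
    · exact isClosed_le continuous_const continuous_fst
    · exact isClosed_le continuous_snd continuous_const
  refine hX _ hG ?_
  have hbtw : ∀ s t : ℝ, s < t → ∃ a : A, s < a ∧ (a : ℝ) < t := by
    intro s t hst
    obtain ⟨q, h1, h2⟩ := hex (Classical.arbitrary Om) s t hst
    exact ⟨⟨_, Or.inl ⟨(Classical.arbitrary Om, q), rfl⟩⟩, h1, h2⟩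
  ext d
  constructor
  · intro hd
    obtain ⟨i, hi⟩ := hbsurj (f ⟨x d, Or.inr ⟨d, hd, rfl⟩⟩) (f ⟨x d, Or.inr ⟨d, hd, rfl⟩⟩).2
    refine ⟨i, fun a => ⟨fun ha => ?_, fun ha => ?_⟩⟩
    · change (f a : ℝ) ≤ b i
      rw [hi]
      exact f.monotone (show a ≤ (⟨x d, Or.inr ⟨d, hd, rfl⟩⟩ : A) from le_of_lt ha)
    · change b i ≤ (f a : ℝ)
      rw [hi]
      exact f.monotone (show (⟨x d, Or.inr ⟨d, hd, rfl⟩⟩ : A) ≤ a from le_of_lt ha)
  · rintro ⟨i, hi⟩
    obtain ⟨a, ha⟩ := f.surjective ⟨b i, hbB i⟩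
    have ha' : (f a : ℝ) = b i := congrArg Subtype.val ha
    rcases lt_trichotomy (a : ℝ) (x d) with hlt | heq | hgt
    · obtain ⟨a', h1, h2⟩ := hbtw _ _ hlt
      have h3 : (f a' : ℝ) ≤ b i := (hi a').1 h2
      have h4 : (f a : ℝ) < f a' := f.strictMono (show a < a' from h1)
      rw [ha'] at h4
      exact absurd h3 (not_le.2 h4)
    · rcases a.2 with h1 | ⟨d', hd', h1⟩
      · rw [heq] at h1
        exact absurd h1 (hxX₀ d)
      · have : d' = d := hxinj (h1.trans heq)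
        rwa [← this]
    · obtain ⟨a', h1, h2⟩ := hbtw _ _ hgt
      have h3 : b i ≤ (f a' : ℝ) := (hi a').2 h1
      have h4 : (f a' : ℝ) < f a := f.strictMono (show a' < a from h2)
      rw [ha'] at h4
      exact absurd h3 (not_le.2 h4)

end Pool.Agent.Helper95.BWD
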