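import Pool.Agent.Helper95.BWD.Club

/-!
# BWD-Catch: functions `ω₁ × ω × ω → K` are caught in finite levels

`P = C × F × F × Om`; `#P ≤ max #F #C` because `ℵ₁ < #F` (`aleph_one_lt F (mod_of_everywhere hF)`, `mk_prod`, `mul_eq_self`, `mk_Om`).
For `A ∈ C` choose `j A : K → Om` injective on `A` (`#A ≤ ℵ₁ = #Om`; see `CofinalityFormula.main` of helper86 for exactly this
`choose`). Fix a bijection `ψ : Om × ℕ × ℕ ≃ Om` (`Cardinal.eq.1`, `mk_prod`, `mul_eq_left`). For `p = (A, f, f', η)` put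
`lev p d k m = {κ | κ ∈ A ∧ j A κ ∈ Base.A (B f η a) (f' a)}` with `a = ψ (d, k, m)`; finite by `A_finite` and injectivity of `j A` on
`A` (`Set.Finite.of_finite_image`). Given `x`, the range of `(d, k, m) ↦ x d k m` has size at most `ℵ₁`, so it is contained in some
`A ∈ C`; put `y a = j A (x ..(ψ.symm a))`; `dominate F (mod_of_everywhere hF) y` gives `f ∈ F`, `η` with `y a < B f η a` for all `a`;
`hF (fun a => e (B f η a) (y a))` gives `f' ∈ F` with `e (B f η a) (y a) < f' a` for all `a`. So `y a ∈ A (B f η a) (f' a)`.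
-/

set_option autoImplicit false

open Cardinal Set

namespace Pool.Agent.Helper95.BWD

theorem catching (F : Set (Om → ℕ)) (hF : EverywhereDominating F) (K : Type)
    (C : Set (Set K)) (hC : CofinalFamily C) :
    ∃ P : Type, #P ≤ max #F #C ∧ ∃ lev : P → Om → ℕ → ℕ → Set K,
      (∀ p d k m, (lev p d k m).Finite) ∧
      ∀ x : Om → ℕ → ℕ → K, ∃ p, ∀ d k m, x d k m ∈ lev p d k m := by
  classical
  have hF1 : ℵ₁ < #F := aleph_one_lt F (mod_of_everywhere hF)
  have hM1 : ℵ₁ ≤ max #F #C := hF1.le.trans (le_max_left _ _)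
  have hM0 : ℵ₀ ≤ max #F #C := aleph0_lt_aleph_one.le.trans hM1
  have hcardOm : #(Om × ℕ × ℕ) = #Om := by
    simp only [mk_prod, lift_id, mk_Om, mk_nat, aleph0_mul_aleph0]
    exact mul_eq_left aleph0_lt_aleph_one.le aleph0_lt_aleph_one.le aleph0_ne_zero
  obtain ⟨ψ⟩ := Cardinal.eq.1 hcardOm
  have hj : ∀ A : C, ∃ j : K → Om, Set.InjOn j A.1 := by
    intro A
    have h1 : #(A.1 : Set K) ≤ #Om := by
      rw [mk_Om]
      exact hC.1 A.1 A.2
    obtain ⟨φ⟩ := h1
    refine ⟨fun k => if h : k ∈ A.1 then φ ⟨k, h⟩ else Classical.arbitrary Om, ?_⟩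
    intro k hk l hl hkl
    have hk' : k ∈ A.1 := hk
    have hl' : l ∈ A.1 := hl
    simp only [hk', hl', dif_pos] at hkl
    exact congrArg Subtype.val (φ.injective hkl)
  choose j hjinj using hj
  refine ⟨C × F × F × Om, ?_, fun p d k m =>
    {κ | κ ∈ p.1.1 ∧ j p.1 κ ∈ A (B p.2.1.1 p.2.2.2 (ψ (d, k, m))) (p.2.2.1.1 (ψ (d, k, m)))},
    ?_, ?_⟩
  · simp only [mk_prod, lift_id, mk_Om]
    calc #C * (#F * (#F * ℵ₁)) ≤
        max #F #C * (max #F #C * (max #F #C * max #F #C)) := by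
          gcongr
          · exact le_max_right _ _
          · exact le_max_left _ _
          · exact le_max_left _ _
      _ = max #F #C := by
          rw [mul_eq_self hM0, mul_eq_self hM0, mul_eq_self hM0]
  · intro p d k m
    apply Set.Finite.of_finite_image (f := j p.1)
    · apply (A_finite (B p.2.1.1 p.2.2.2 (ψ (d, k, m))) (p.2.2.1.1 (ψ (d, k, m)))).subset
      rintro _ ⟨κ, hκ, rfl⟩
      exact hκ.2
    · exact (hjinj p.1).mono fun κ hκ => hκ.1
  · intro x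
    have hS : #(Set.range fun q : Om × ℕ × ℕ => x q.1 q.2.1 q.2.2) ≤ ℵ₁ := by
      refine mk_range_le.trans ?_
      rw [hcardOm, mk_Om]
    obtain ⟨A', hA', hsub⟩ := hC.2 _ hS
    let y : Om → Om := fun a =>
      j ⟨A', hA'⟩ (x (ψ.symm a).1 (ψ.symm a).2.1 (ψ.symm a).2.2)
    obtain ⟨f, hf, η, hη⟩ := dominate F (mod_of_everywhere hF) y
    obtain ⟨f', hf', hlt⟩ := hF fun a => e (B f η a) (y a)
    refine ⟨(⟨A', hA'⟩, ⟨f, hf⟩, ⟨f', hf'⟩, η), fun d k m => ⟨hsub ⟨(d, k, m), rfl⟩, ?_⟩⟩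
    have hy : y (ψ (d, k, m)) = j ⟨A', hA'⟩ (x d k m) := by
      simp only [y, Equiv.symm_apply_apply]
    have h1 := hη (ψ (d, k, m))
    have h2 := hlt (ψ (d, k, m))
    rw [hy] at h1
    simp only [hy] at h2
    exact ⟨h1.le, h2⟩

end Pool.Agent.Helper95.BWD
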