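import Pool.Agent.Helper95.BWD.Base

/-!
# Project BWD (MP_54d188_lc): clubs and stationary sets of countable ordinals; `K`-Suslin sets
-/

set_option autoImplicit false

open Cardinal Set

namespace Pool.Agent.Helper95.BWD

/-- closed unbounded sets of countable ordinals -/
structure IsClub (C : Set Om) : Prop where
  unb : ∀ a, ∃ c ∈ C, a < c
  cl : ∀ d, (∃ a, a < d) → (∀ a, a < d → ∃ c ∈ C, a < c ∧ c < d) → d ∈ C

/-- stationary sets of countable ordinals -/
def Stationary (S : Set Om) : Prop := ∀ C, IsClub C → (S ∩ C).Nonempty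

/-- `B` is the projection of a closed subset of `K^ω × Z`, where `K` is discrete -/
def SuslinOver (K : Type) {Z : Type} [TopologicalSpace Z] (B : Set Z) : Prop :=
  letI : TopologicalSpace K := ⊥
  ∃ R : Set ((ℕ → K) × Z), IsClosed R ∧ B = {z | ∃ w, (w, z) ∈ R}

/-- `θ h` depends only on the values of `h` at the places in `s` -/
def DepOn (θ : (Om → Bool) → Bool) (s : Set Om) : Prop :=
  ∀ h h' : Om → Bool, (∀ x ∈ s, h x = h' x) → θ h = θ h'

/-- the closure points of `x` form a club -/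
theorem club_closure (x : Om → Om) : IsClub {d | (∃ a, a < d) ∧ ∀ c, c < d → x c < d} := by
  refine ⟨fun a => ?_, fun d hd h => ⟨hd, fun c hc => ?_⟩⟩
  · obtain ⟨d, h1, h2⟩ := closed_unbounded x a
    exact ⟨d, ⟨⟨a, h1⟩, h2⟩, h1⟩
  · obtain ⟨c', hc', h1, h2⟩ := h c hc
    exact (hc'.2 c h1).trans h2

/-- the intersection of countably many clubs -/
theorem club_iInter (C : ℕ → Set Om) (hC : ∀ n, IsClub (C n)) : IsClub (⋂ n, C n) := by
  choose nx hnx hlt using fun n => (hC n).unb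
  have hb : ∀ a : Om, ∃ b, ∀ n, nx n a < b := by
    intro a
    obtain ⟨b, hb⟩ := bdd (s := Set.range fun n => nx n a) (Set.countable_range _)
    exact ⟨b, fun n => hb _ ⟨n, rfl⟩⟩
  choose x hx using hb
  refine ⟨fun a => ?_, fun d hd h => ?_⟩
  · obtain ⟨d, h1, h2⟩ := closed_unbounded x a
    refine ⟨d, Set.mem_iInter.2 fun n => (hC n).cl d ⟨a, h1⟩ fun c hc => ?_, h1⟩
    exact ⟨nx n c, hnx n c, hlt n c, (hx c n).trans (h2 c hc)⟩
  · refine Set.mem_iInter.2 fun n => (hC n).cl d hd fun a ha => ?_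
    obtain ⟨c, hc, h1, h2⟩ := h a ha
    exact ⟨c, Set.mem_iInter.1 hc n, h1, h2⟩

theorem club_inter {C D : Set Om} (hC : IsClub C) (hD : IsClub D) : IsClub (C ∩ D) := by
  have h := club_iInter (fun n => if n = 0 then C else D) (fun n => by
    by_cases hn : n = 0
    · simpa [hn] using hC
    · simpa [hn] using hD)
  have e : (⋂ n : ℕ, (if n = 0 then C else D)) = C ∩ D := by
    ext d
    simp only [Set.mem_iInter, Set.mem_inter_iff]
    constructor
    · intro h
      exact ⟨by simpa using h 0, by simpa using h 1⟩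
    · rintro ⟨h1, h2⟩ n
      by_cases hn : n = 0
      · simpa [hn] using h1
      · simpa [hn] using h2
  rw [e] at h
  exact h

theorem club_univ : IsClub (Set.univ : Set Om) :=
  ⟨fun a => by
    obtain ⟨d, h1, _⟩ := closed_unbounded id a
    exact ⟨d, trivial, h1⟩, fun _ _ _ => trivial⟩

theorem club_Ioi (a : Om) : IsClub (Set.Ioi a) := by
  refine ⟨fun b => ?_, fun d hd h => ?_⟩
  · obtain ⟨d, h1, _⟩ := closed_unbounded id (max a b)
    exact ⟨d, (le_max_left _ _).trans_lt h1, (le_max_right _ _).trans_lt h1⟩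
  · obtain ⟨b, hb⟩ := hd
    obtain ⟨c, hc, _, h2⟩ := h b hb
    exact lt_trans hc h2

theorem Stationary.inter {S C : Set Om} (hS : Stationary S) (hC : IsClub C) :
    Stationary (S ∩ C) := by
  intro D hD
  obtain ⟨d, h1, h2⟩ := hS (C ∩ D) (club_inter hC hD)
  exact ⟨d, ⟨h1, h2.1⟩, h2.2⟩

theorem Stationary.mono {S T : Set Om} (hS : Stationary S) (h : S ⊆ T) : Stationary T := by
  intro D hD
  obtain ⟨d, h1, h2⟩ := hS D hD
  exact ⟨d, h h1, h2⟩

theorem stationary_univ : Stationary (Set.univ : Set Om) := by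
  intro D hD
  obtain ⟨c, hc, _⟩ := hD.unb (Classical.arbitrary Om)
  exact ⟨c, trivial, hc⟩

/-- few clubs -/
theorem few_clubs (F : Set (Om → ℕ)) (hF : EverywhereDominating F) :
    ∃ Q : Type, #Q ≤ #F ∧ ∃ E : Q → Set Om, (∀ q, IsClub (E q)) ∧
      ∀ C, IsClub C → ∃ q, E q ⊆ C := by
  refine ⟨F × Om, ?_, fun q => {d | (∃ a, a < d) ∧ ∀ c, c < d → B q.1 q.2 c < d},
    fun q => club_closure _, fun C hC => ?_⟩
  · have h := aleph_one_lt F (mod_of_everywhere hF)
    rw [mk_prod, lift_id, lift_id, mk_Om]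
    calc #F * ℵ₁ ≤ #F * #F := by gcongr
      _ = #F := mul_eq_self (aleph0_lt_aleph_one.le.trans h.le)
  · choose nx hnx hlt using hC.unb
    obtain ⟨f, hf, η, h⟩ := dominate F (mod_of_everywhere hF) nx
    refine ⟨(⟨f, hf⟩, η), fun d hd => hC.cl d hd.1 fun a ha => ?_⟩
    exact ⟨nx a, hnx a, hlt a, (h a).trans (hd.2 a ha)⟩

end Pool.Agent.Helper95.BWD
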