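import Pool.Agent.Helper95.BWD.Club

/-!
# BWD-DS: the weak diamond (Devlin and Shelah)

Contraposition: assume that for every `g : Om → Bool` there are `h : Om → Bool` and a club `C` with
`restr d h ∈ B d ↔ g d = true` for `d ∈ C` (apply the negation of the statement to `fun d => !g d`). Show `2 ^ ℵ₁ ≤ 𝔠`.

`ds_vec`: for every `G : Om → ℕ → Bool` there are `H : ℕ → Om → Bool` and a club `C` with
`restr d (H k) ∈ B d ↔ G d k = true` for `d ∈ C` and all `k` (choose for each `k`; `club_iInter`). So there is a map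
`D : ∀ d, (ℕ → Set.Iio d → Bool) → (ℕ → Bool)` (decoding: `D d z k = true ↔ z k ∈ B d`) with `G d = D d (restr d ∘ H)` on `C`.

Coding of triples: let `cut η h x = if x < η then h x else false`. The type `Om × (ℕ → ℕ → (cut functions))` injects into `ℕ → Bool` when
restricted to one `η`: simplest is the type `Σ η : Om, (ℕ → ℕ → Set.Iio η → Bool)`, which has cardinality at most `𝔠`
(`mk_sigma`, `Cardinal.sum_le_sum`, `#(ℕ → ℕ → Set.Iio η → Bool) = 2 ^ (countable) ≤ 𝔠`, `ℵ₁ ≤ 𝔠`). Let `ι` be an injection of it into `ℕ → Bool`.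

Recursion (for `f : Om → Bool`): a state is a pair (`Hs : ℕ → ℕ → Om → Bool` (row `m`, index `k`), club `Dn`). Stage `0`: row `0` is
`fun _ => f`, all other rows are `false`, `D_0 = univ`. Stage `n → n + 1`: let
`nx d = ` least element of `D_n` above `d` (or any chosen element `> d` of `D_n` that depends only on ... ; use the least one,
`wf.min`); `G_{n+1} d = ι ⟨nx_n d, fun m k x => Hs_n m k x⟩` (all rows of the state restricted to `nx_n d`); `(H', C')` from `ds_vec`; the new
state has row `n + 1` equal to `H'`, the other rows as before, `D_{n+1} = D_n ∩ C'`. Rows stabilise: row `m` of stage `n ≥ m` is the row `m` of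
stage `m`; call it `Hr m`. `C = ⋂ D_n` is a club.

Injectivity: map `f ↦ ⟨d₀, (Hr m k restricted to Iio d₀)⟩ ∈ Σ η, (ℕ → ℕ → Iio η → Bool)` with `d₀` the least element of `C`. Suppose `f, f'`
have the same image. Let `E` be the set of `d ∈ C ∩ C'` such that `Hr m k` and `Hr' m k` agree below `d` for all `m, k`; `d₀ ∈ E`. If `E` is
unbounded then `f = Hr 0 0 = Hr' 0 0 = f'`. Otherwise let `d` be the supremum of `E` (least upper bound, `wf.min` of the upper bounds): `d ∈ E`
(closedness of `C`, `C'`, or `d` is itself in `E`). For every `n`, `G_{n+1} d = D d (restr (Hr (n+1)))` is the same for both, so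
(`ι` injective) `nx_n d = nx'_n d =: η_n` and the rows `m ≤ n` agree below `η_n`. `η_n` is nondecreasing (`D_{n+1} ⊆ D_n`), `η_n > d`. Let `η` be the
least upper bound of the `η_n`. `η ∈ D_m` for every `m`: if `η = η_n` for some `n` then `η = η_n'` for all `n' ≥ n` and `η_n' ∈ D_n' ⊆ D_m`; otherwise
the `η_n`, `n ≥ m`, are elements of `D_m` cofinal in `η`. The same for `D'_m`. So `η ∈ C ∩ C'`, all rows agree below `η` (for `x < η` there is `n`, as large
as we want, with `x < η_n`), `η ∈ E`, `η > d`: contradiction. (Equality of dependent pairs: `Sigma.mk.inj_iff`, then `subst`/`HEq`; it may be easier to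
use instead of the sigma type the type of pairs `(η, u : ℕ → ℕ → Om → Bool)` with `u m k x = false` for `x ≥ η`, a subtype whose cardinality
is bounded by mapping to `Σ η`.)
The injection shows `#(Om → Bool) ≤ 𝔠`, and `#(Om → Bool) = 2 ^ ℵ₁` (`mk_Om`).
-/

set_option autoImplicit false

open Cardinal Set

namespace Pool.Agent.Helper95.BWD

private theorem DS_inj :
    ∃ j : Om × (ℕ × ℕ × ℕ → Bool) → (ℕ → Bool), Function.Injective j := by
  have h1 : #(ℕ × ℕ × ℕ → Bool) = 𝔠 := by simp
  have h2 : #(ℕ → Bool) = 𝔠 := by simp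
  have h : #(Om × (ℕ × ℕ × ℕ → Bool)) ≤ #(ℕ → Bool) := by
    rw [mk_prod, lift_id, lift_id, mk_Om, h1, h2]
    calc ℵ₁ * 𝔠 ≤ 𝔠 * 𝔠 := by
          gcongr
          exact aleph_one_le_continuum
      _ = 𝔠 := continuum_mul_self
  obtain ⟨φ⟩ := h
  exact ⟨φ, φ.injective⟩

/-- coding of an ordinal and of the rows below it -/
private theorem DS_code :
    ∃ c : Om → (ℕ → ℕ → Om → Bool) → (ℕ → Bool), ∀ η η' u u', c η u = c η' u' →
      η = η' ∧ ∀ m k x, x < η → u m k x = u' m k x := by
  classical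
  obtain ⟨j, hj⟩ := DS_inj
  refine ⟨fun η u => j (η, fun q => decide (∃ x, x < η ∧ e η x = q.2.2 ∧ u q.1 q.2.1 x = true)),
    ?_⟩
  intro η η' u u' h
  obtain ⟨h2, h3⟩ := Prod.mk.inj (hj h)
  subst h2
  refine ⟨rfl, fun m k x hx => ?_⟩
  have h4 := congrFun h3 (m, k, e η x)
  have h5 : (∃ y, y < η ∧ e η y = e η x ∧ u m k y = true) ↔
      (∃ y, y < η ∧ e η y = e η x ∧ u' m k y = true) := decide_eq_decide.1 h4
  have h6 : ∀ v : ℕ → ℕ → Om → Bool,
      (∃ y, y < η ∧ e η y = e η x ∧ v m k y = true) ↔ v m k x = true := by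
    intro v
    constructor
    · rintro ⟨y, hy, hyx, hv⟩
      rw [← e_injOn η hy.le hx.le hyx]
      exact hv
    · intro hv
      exact ⟨x, hx, rfl, hv⟩
  rw [h6, h6] at h5
  exact Bool.eq_iff_iff.2 h5

private theorem DS_nx_ne {D : Set Om} (hD : IsClub D) (d : Om) :
    {c | c ∈ D ∧ d < c}.Nonempty := by
  obtain ⟨c, h1, h2⟩ := hD.unb d
  exact ⟨c, h1, h2⟩

/-- the next element of a club -/
private noncomputable def DS_nx {D : Set Om} (hD : IsClub D) (d : Om) : Om :=
  wf.min {c | c ∈ D ∧ d < c} (DS_nx_ne hD d)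

private theorem DS_nx_mem {D : Set Om} (hD : IsClub D) (d : Om) :
    DS_nx hD d ∈ D ∧ d < DS_nx hD d := wf.min_mem _ (DS_nx_ne hD d)

private theorem DS_nx_le {D : Set Om} (hD : IsClub D) (d : Om) {c : Om} (hc : c ∈ D)
    (h : d < c) : DS_nx hD d ≤ c :=
  not_lt.1 (wf.not_lt_min {c | c ∈ D ∧ d < c} ⟨hc, h⟩)

/-- states of the recursion -/
private structure DS_St where
  rows : ℕ → ℕ → Om → Bool
  D : Set Om
  club : IsClub D

private theorem DS_stages (B : ∀ d : Om, Set (Set.Iio d → Bool))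
    (c : Om → (ℕ → ℕ → Om → Bool) → (ℕ → Bool))
    (hv : ∀ G : Om → ℕ → Bool, ∃ (H : ℕ → Om → Bool) (C : Set Om), IsClub C ∧
      ∀ d ∈ C, ∀ k, ((fun x : Set.Iio d => H k x) ∈ B d ↔ G d k = true)) :
    ∃ st : (Om → Bool) → ℕ → DS_St, ∀ f,
      (st f 0).rows 0 0 = f ∧
      (∀ n m, m ≤ n → (st f (n + 1)).rows m = (st f n).rows m) ∧
      (∀ n, (st f (n + 1)).D ⊆ (st f n).D) ∧
      (∀ n, ∀ d ∈ (st f (n + 1)).D, ∀ k,
        ((fun x : Set.Iio d => (st f (n + 1)).rows (n + 1) k x) ∈ B d ↔
          c (DS_nx (st f n).club d) (st f n).rows k = true)) := by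
  choose H C hC hH using hv
  let G : DS_St → Om → ℕ → Bool := fun p d => c (DS_nx p.club d) p.rows
  let step : ℕ → DS_St → DS_St := fun n p =>
    { rows := fun m => if m = n + 1 then H (G p) else p.rows m
      D := p.D ∩ C (G p)
      club := club_inter p.club (hC _) }
  let st : (Om → Bool) → ℕ → DS_St := fun f n =>
    Nat.rec ⟨fun _ _ => f, Set.univ, club_univ⟩ (fun n p => step n p) n
  have hst : ∀ f n, st f (n + 1) = step n (st f n) := fun _ _ => rfl
  refine ⟨st, fun f => ⟨rfl, fun n m hm => ?_, fun n => ?_, fun n d hd k => ?_⟩⟩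
  · rw [hst]
    show (if m = n + 1 then H (G (st f n)) else (st f n).rows m) = (st f n).rows m
    rw [if_neg (by omega)]
  · rw [hst]
    exact Set.inter_subset_left
  · rw [hst] at hd ⊢
    have h1 : (step n (st f n)).rows (n + 1) = H (G (st f n)) := by
      show (if n + 1 = n + 1 then H (G (st f n)) else (st f n).rows (n + 1)) = _
      rw [if_pos rfl]
    rw [h1]
    exact hH (G (st f n)) d hd.2 k

theorem devlinShelah (hc : 𝔠 < (2 : Cardinal.{0}) ^ ℵ₁) (B : ∀ d : Om, Set (Set.Iio d → Bool)) :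
    ∃ g : Om → Bool, ∀ h : Om → Bool,
      Stationary {d | (fun x : Set.Iio d => h x) ∈ B d ↔ g d = true} := by
  by_contra hcon
  push Not at hcon
  have hyp : ∀ g : Om → Bool, ∃ (h : Om → Bool) (C : Set Om), IsClub C ∧
      ∀ d ∈ C, ((fun x : Set.Iio d => h x) ∈ B d ↔ g d = true) := by
    intro g
    obtain ⟨h, hh⟩ := hcon (fun d => !g d)
    have hh' : ¬ ∀ C, IsClub C →
      ({d | (fun x : Set.Iio d => h x) ∈ B d ↔ (!g d) = true} ∩ C).Nonempty := hh
    push Not at hh'
    obtain ⟨C, hC, hE⟩ := hh'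
    refine ⟨h, C, hC, fun d hd => ?_⟩
    have h1 : ¬ ((fun x : Set.Iio d => h x) ∈ B d ↔ (!g d) = true) := by
      intro h2
      have h3 : d ∈ {d | (fun x : Set.Iio d => h x) ∈ B d ↔ (!g d) = true} ∩ C := ⟨h2, hd⟩
      rw [hE] at h3
      exact h3
    by_cases hg : g d = true
    · simp only [hg, Bool.not_true, Bool.false_eq_true, iff_false, not_not, iff_true] at h1 ⊢
      exact h1
    · have hg' : g d = false := by simpa using hg
      simp only [hg', Bool.not_false, iff_true, Bool.false_eq_true, iff_false] at h1 ⊢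
      exact h1
  have hv : ∀ G : Om → ℕ → Bool, ∃ (H : ℕ → Om → Bool) (C : Set Om), IsClub C ∧
      ∀ d ∈ C, ∀ k, ((fun x : Set.Iio d => H k x) ∈ B d ↔ G d k = true) := by
    intro G
    choose H C hC hH using fun k => hyp (fun d => G d k)
    exact ⟨H, ⋂ k, C k, club_iInter C hC, fun d hd k => hH k d (Set.mem_iInter.1 hd k)⟩
  obtain ⟨c, hc1⟩ := DS_code
  obtain ⟨st, hst⟩ := DS_stages B c hv
  have hrow : ∀ f m n, m ≤ n → (st f n).rows m = (st f m).rows m := by
    intro f m n hmn
    induction n, hmn using Nat.le_induction with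
    | base => rfl
    | succ n hn ih => rw [(hst f).2.1 n m hn, ih]
  have hD : ∀ f m n, m ≤ n → (st f n).D ⊆ (st f m).D := by
    intro f m n hmn
    induction n, hmn using Nat.le_induction with
    | base => exact subset_rfl
    | succ n hn ih => exact ((hst f).2.2.1 n).trans ih
  have hCl : ∀ f, IsClub (⋂ n, (st f n).D) := fun f => club_iInter _ fun n => (st f n).club
  -- the least element
  have hne : ∀ f, (⋂ n, (st f n).D).Nonempty := by
    intro f
    obtain ⟨d, hd, _⟩ := (hCl f).unb (Classical.arbitrary Om)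
    exact ⟨d, hd⟩
  let d0 : (Om → Bool) → Om := fun f => wf.min _ (hne f)
  have hd0 : ∀ f, d0 f ∈ ⋂ n, (st f n).D := fun f => wf.min_mem _ (hne f)
  let Hr : (Om → Bool) → ℕ → ℕ → Om → Bool := fun f m => (st f m).rows m
  have hinj : Function.Injective (fun f => c (d0 f) (Hr f)) := by
    intro f f' hff
    obtain ⟨hd, hr⟩ := hc1 _ _ _ _ hff
    let E : Set Om := {d | d ∈ (⋂ n, (st f n).D) ∧ d ∈ (⋂ n, (st f' n).D) ∧
      ∀ m k x, x < d → Hr f m k x = Hr f' m k x}
    have hE0 : d0 f ∈ E := ⟨hd0 f, by rw [hd]; exact hd0 f', hr⟩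
    have hEcl : ∀ s, (∃ a, a < s) → (∀ a, a < s → ∃ d ∈ E, a < d ∧ d < s) → s ∈ E := by
      intro s hs h
      refine ⟨(hCl f).cl s hs fun a ha => ?_, (hCl f').cl s hs fun a ha => ?_,
        fun m k x hx => ?_⟩
      · obtain ⟨d, h1, h2⟩ := h a ha
        exact ⟨d, h1.1, h2⟩
      · obtain ⟨d, h1, h2⟩ := h a ha
        exact ⟨d, h1.2.1, h2⟩
      · obtain ⟨d, h1, h2, _⟩ := h x hx
        exact h1.2.2 m k x h2
    have hEnx : ∀ d ∈ E, ∃ η ∈ E, d < η := by
      intro d hdE
      have key : ∀ n, DS_nx (st f n).club d = DS_nx (st f' n).club d ∧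
          ∀ m k x, x < DS_nx (st f n).club d → (st f n).rows m k x = (st f' n).rows m k x := by
        intro n
        apply hc1
        funext k
        have h1 := (hst f).2.2.2 n d (Set.mem_iInter.1 hdE.1 (n + 1)) k
        have h2 := (hst f').2.2.2 n d (Set.mem_iInter.1 hdE.2.1 (n + 1)) k
        have h3 : (fun x : Set.Iio d => (st f (n + 1)).rows (n + 1) k x) =
            (fun x : Set.Iio d => (st f' (n + 1)).rows (n + 1) k x) := by
          funext x
          exact hdE.2.2 (n + 1) k x x.2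
        rw [h3] at h1
        exact Bool.eq_iff_iff.2 (h1.symm.trans h2)
      let η : ℕ → Om := fun n => DS_nx (st f n).club d
      have hη' : ∀ n, η n = DS_nx (st f' n).club d := fun n => (key n).1
      have hmem : ∀ m n, m ≤ n → η n ∈ (st f m).D := fun m n hmn =>
        hD f m n hmn (DS_nx_mem (st f n).club d).1
      have hmem' : ∀ m n, m ≤ n → η n ∈ (st f' m).D := fun m n hmn => by
        rw [hη']
        exact hD f' m n hmn (DS_nx_mem (st f' n).club d).1
      have hlt : ∀ n, d < η n := fun n => (DS_nx_mem (st f n).club d).2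
      have hmono : ∀ m n, m ≤ n → η m ≤ η n := fun m n hmn =>
        DS_nx_le (st f m).club d (hmem m n hmn) (hlt n)
      have hbn : {u : Om | ∀ n, η n ≤ u}.Nonempty := by
        obtain ⟨b, hb⟩ := bdd (s := Set.range η) (Set.countable_range _)
        exact ⟨b, fun n => (hb _ ⟨n, rfl⟩).le⟩
      let s : Om := wf.min _ hbn
      have hs : ∀ n, η n ≤ s := wf.min_mem _ hbn
      have hsl : ∀ a, a < s → ∃ n, a < η n := by
        intro a ha
        by_contra hno
        push Not at hno
        exact wf.not_lt_min {u : Om | ∀ n, η n ≤ u} hno ha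
      have hsD : ∀ (X : Set Om) (m : ℕ), IsClub X → (∀ n, m ≤ n → η n ∈ X) → s ∈ X := by
        intro X m hX hXm
        by_cases hq : ∃ n, s = η n
        · obtain ⟨n, hn⟩ := hq
          have h1 : s = η (max m n) :=
            le_antisymm (by rw [hn]; exact hmono _ _ (le_max_right _ _)) (hs _)
          rw [h1]
          exact hXm _ (le_max_left _ _)
        · push Not at hq
          refine hX.cl s ⟨d, (hlt 0).trans_le (hs 0)⟩ fun a ha => ?_
          obtain ⟨n, hn⟩ := hsl a ha
          refine ⟨η (max m n), hXm _ (le_max_left _ _),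
            hn.trans_le (hmono _ _ (le_max_right _ _)), ?_⟩
          exact lt_of_le_of_ne (hs _) (fun h => hq _ h.symm)
      refine ⟨s, ⟨?_, ?_, ?_⟩, (hlt 0).trans_le (hs 0)⟩
      · exact Set.mem_iInter.2 fun m => hsD _ m (st f m).club (hmem m)
      · exact Set.mem_iInter.2 fun m => hsD _ m (st f' m).club (hmem' m)
      · intro m k x hx
        obtain ⟨n, hn⟩ := hsl x hx
        have h1 := (key (max m n)).2 m k x (hn.trans_le (hmono _ _ (le_max_right _ _)))
        rw [hrow f m _ (le_max_left _ _), hrow f' m _ (le_max_left _ _)] at h1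
        exact h1
    have hEunb : ∀ a, ∃ d ∈ E, a < d := by
      by_contra hno
      push Not at hno
      obtain ⟨a, ha⟩ := hno
      have hun : {u : Om | ∀ d ∈ E, d ≤ u}.Nonempty := ⟨a, ha⟩
      let s : Om := wf.min _ hun
      have hs : ∀ d ∈ E, d ≤ s := wf.min_mem _ hun
      have hsE : s ∈ E := by
        by_contra hsn
        have hlt : ∀ d ∈ E, d < s := fun d hdE =>
          lt_of_le_of_ne (hs d hdE) (fun h => hsn (h ▸ hdE))
        apply hsn
        refine hEcl s ⟨d0 f, hlt _ hE0⟩ fun a ha => ?_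
        by_contra hno
        push Not at hno
        refine wf.not_lt_min {u : Om | ∀ d ∈ E, d ≤ u} (fun d hdE => ?_) ha
        by_contra hcd
        exact absurd (hlt d hdE) (not_lt.2 (hno d hdE (not_le.1 hcd)))
      obtain ⟨η, hη, hsη⟩ := hEnx s hsE
      exact absurd (hs η hη) (not_le.2 hsη)
    funext x
    obtain ⟨d, hdE, hxd⟩ := hEunb x
    have h1 := hdE.2.2 0 0 x hxd
    have h2 : Hr f 0 0 = f := (hst f).1
    have h3 : Hr f' 0 0 = f' := (hst f').1
    rw [h2, h3] at h1
    exact h1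
  have hle : #(Om → Bool) ≤ #(ℕ → Bool) := mk_le_of_injective hinj
  have e1 : #(Om → Bool) = 2 ^ ℵ₁ := by
    rw [← power_def, mk_Om, mk_bool]
  have e2 : #(ℕ → Bool) = 𝔠 := by simp
  rw [e1, e2] at hle
  exact absurd hc (not_lt.2 hle)

end Pool.Agent.Helper95.BWD
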