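import Pool.Agent.Helper95.BWD.CorDef

/-!
# BWD-Jones: separable normal spaces of character at most `ℵ₁`

Suppose `D` is closed, discrete and uncountable. Then there is an injection `x : Om → Z` with values in `D` (`ℵ₁ ≤ #D`, `mk_Om`). Let
`q : ℕ → Z` have dense range (`TopologicalSpace.exists_dense_seq`, `Z` is nonempty), `N d i` (`i : Om`) the neighbourhoods from `hχ (x d)`. Put
`V d = {r : ℕ → Bool | ∃ w : ℕ → Om, ∀ n, r n = true → q n ∉ N d (w 0)}`, which is `Om`-Suslin: with `letI : TopologicalSpace Om := ⊥` the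
set `{(w, r) | ∀ n, r n = true → q n ∉ N d (w 0)}` is closed (for every `n` the complement `{(w, r) | r n = true ∧ q n ∈ N d (w 0)}` is an intersection
of two preimages of open sets; every subset of the discrete space `Om` is open; better state an auxiliary lemma for a type `K` with
`[TopologicalSpace K] [DiscreteTopology K]`). `NotOnto Om` gives `X : Set Om`. The sets `x '' X` and `D \ x '' X` are closed (every subset of a
closed discrete set is closed) and disjoint, so (normality) there are disjoint opens `U ⊇ x '' X` and `U' ⊇ D \ x '' X`. Let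
`r n = true ↔ q n ∈ U`. If `d ∈ X`: `x d ∈ U`, for every `i` the set `N d i ∩ U` is a neighbourhood of `x d`, so it contains some `q n`: `r ∉ V d`. If
`d ∉ X`: `x d ∈ U'` (injectivity of `x`), so some `N d i ⊆ U'`, disjoint from `U`: `r ∈ V d`. So `r ∈ V d ↔ d ∉ X` for all `d`, but a stationary set is
nonempty (`club_univ`): contradiction.
-/

set_option autoImplicit false

open Cardinal Set Topology

namespace Pool.Agent.Helper95.BWD

private theorem Jones_closed {K Z : Type} [TopologicalSpace K] [DiscreteTopology K] (N : K → Set Z)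
    (q : ℕ → Z) : IsClosed {p : (ℕ → K) × (ℕ → Bool) | ∀ n, p.2 n = true → q n ∉ N (p.1 0)} := by
  rw [Set.ofPred_forall]
  apply isClosed_iInter
  intro n
  have hc : Continuous (fun p : (ℕ → K) × (ℕ → Bool) => (p.1 0, p.2 n)) :=
    ((continuous_apply 0).comp continuous_fst).prodMk ((continuous_apply n).comp continuous_snd)
  exact (isClosed_discrete {a : K × Bool | a.2 = true → q n ∉ N a.1}).preimage hc

private theorem Jones_suslin {Z : Type} (N : Om → Set Z) (q : ℕ → Z) :
    SuslinOver Om {r : ℕ → Bool | ∃ w : ℕ → Om, ∀ n, r n = true → q n ∉ N (w 0)} := by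
  letI : TopologicalSpace Om := ⊥
  haveI : DiscreteTopology Om := ⟨rfl⟩
  exact ⟨{p : (ℕ → Om) × (ℕ → Bool) | ∀ n, p.2 n = true → q n ∉ N (p.1 0)}, Jones_closed N q, rfl⟩

theorem jones (h : NotOnto Om) (Z : Type) [TopologicalSpace Z] [TopologicalSpace.SeparableSpace Z]
    [NormalSpace Z]
    (hχ : ∀ z : Z, ∃ N : Om → Set Z, (∀ i, N i ∈ 𝓝 z) ∧ ∀ U ∈ 𝓝 z, ∃ i, N i ⊆ U)
    (D : Set Z) (hD : IsClosed D) (hD' : DiscreteTopology D) : D.Countable := by
  classical
  by_contra hunc
  have hle : #Om ≤ #D := by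
    rw [mk_Om, ← succ_aleph0]
    apply Order.succ_le_of_lt
    by_contra hcon
    exact hunc (le_aleph0_iff_set_countable.1 (not_lt.1 hcon))
  obtain ⟨f⟩ := (Cardinal.le_def Om D).1 hle
  have hne : D.Nonempty := by
    by_contra hcon
    rw [Set.not_nonempty_iff_eq_empty] at hcon
    exact hunc (by rw [hcon]; exact Set.countable_empty)
  haveI : Nonempty Z := ⟨hne.choose⟩
  obtain ⟨q, hq⟩ := TopologicalSpace.exists_dense_seq Z
  choose N hN1 hN2 using fun d : Om => hχ (f d : Z)
  obtain ⟨X, hX⟩ := h (fun d => {r : ℕ → Bool | ∃ w : ℕ → Om, ∀ n, r n = true → q n ∉ N d (w 0)})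
    (fun d => Jones_suslin (N d) q)
  have hcl : ∀ S : Set D, IsClosed (Subtype.val '' S : Set Z) := fun S =>
    hD.isClosedEmbedding_subtypeVal.isClosedMap S (isClosed_discrete S)
  have hdisj : Disjoint (Subtype.val '' (f '' X) : Set Z) (Subtype.val '' (f '' X)ᶜ) := by
    rw [Set.disjoint_left]
    rintro z ⟨a, ha, rfl⟩ ⟨b, hb, hab⟩
    have : b = a := Subtype.ext hab
    rw [this] at hb
    exact hb ha
  obtain ⟨U, U', hU, hU', hXU, hYU, hUU⟩ := normal_separation (hcl (f '' X)) (hcl (f '' X)ᶜ) hdisj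
  set r : ℕ → Bool := fun n => decide (q n ∈ U) with hr
  have key : ∀ d, (∃ w : ℕ → Om, ∀ n, r n = true → q n ∉ N d (w 0)) ↔ d ∉ X := by
    intro d
    constructor
    · rintro ⟨w, hw⟩ hd
      have hxU : (f d : Z) ∈ U := hXU ⟨f d, ⟨d, hd, rfl⟩, rfl⟩
      have hnh : N d (w 0) ∩ U ∈ 𝓝 (f d : Z) := Filter.inter_mem (hN1 d (w 0)) (hU.mem_nhds hxU)
      obtain ⟨n, hn⟩ := hq.exists_mem_open isOpen_interior ⟨(f d : Z), mem_interior_iff_mem_nhds.2 hnh⟩
      have hn' := interior_subset hn
      exact hw n (by simp only [hr, decide_eq_true_eq]; exact hn'.2) hn'.1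
    · intro hd
      have hxU : (f d : Z) ∈ U' := hYU ⟨f d, by
        rintro ⟨d', hd', he⟩
        exact hd (by rw [← f.injective he]; exact hd'), rfl⟩
      obtain ⟨i, hi⟩ := hN2 d U' (hU'.mem_nhds hxU)
      refine ⟨fun _ => i, ?_⟩
      intro n hn hmem
      simp only [hr, decide_eq_true_eq] at hn
      exact Set.disjoint_left.1 hUU hn (hi hmem)
  obtain ⟨d, hd, _⟩ := hX r _ club_univ
  have hd' : (∃ w : ℕ → Om, ∀ n, r n = true → q n ∉ N d (w 0)) ↔ d ∈ X := hd
  rw [key d] at hd'
  by_cases hdX : d ∈ X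
  · exact (hd'.2 hdX) hdX
  · exact hdX (hd'.1 hdX)

end Pool.Agent.Helper95.BWD
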