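import Pool.Agent.Helper95.BWD.CorDef

/-!
# BWD-Ladder: no uniformization of monochromatic colourings of ladder systems

`B d = {z | ∃ w : ℕ → ℕ, ∀ n, w 0 ≤ n → ∀ hn : C d n < d, z ⟨C d n, hn⟩ = false}`: `suslin_nat` with the closed set
`{(w, z) | ∀ n, w 0 ≤ n → ∀ hn : C d n < d, z ⟨C d n, hn⟩ = false}` (for every `n` and `hn` the complement
`{(w, z) | w 0 ≤ n ∧ z ⟨C d n, hn⟩ = true}` is open). Get `g` from `WDK ℕ S`. Given `h` and a club `E`, apply the stationarity to the club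
`E ∩ {d | ∃ a, a < d}` (`club_inter`, `club_closure` with `id`, or `club_Ioi`): some `d ∈ S ∩ E` with `∃ a, a < d` (so all `C d n < d`) and
`h|d ∈ B d ↔ g d = true`. `h|d ∈ B d` iff `h (C d n) = false` for all large `n`. If `g d = true`: `h (C d n) = false ≠ g d` for
all large `n`, so `h (C d n) = g d` for all large `n` is false. If `g d = false`: `h|d ∉ B d`, so it is false that `h (C d n) = false = g d`
for all large `n`.
-/

set_option autoImplicit false

open Cardinal Set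

namespace Pool.Agent.Helper95.BWD

theorem ladder (S : Set Om) (hWD : WDK ℕ S) (C : Om → ℕ → Om)
    (hC : ∀ d, (∃ a, a < d) → ∀ n, C d n < d) :
    ∃ g : Om → Bool, ∀ h : Om → Bool,
      Stationary {d | d ∈ S ∧ ¬ ∀ᶠ n in Filter.atTop, h (C d n) = g d} := by
  have hcl : ∀ d : Om, IsClosed {p : (ℕ → ℕ) × (Set.Iio d → Bool) |
      ∀ n, p.1 0 ≤ n → ∀ hn : C d n < d, p.2 ⟨C d n, hn⟩ = false} := by
    intro d
    have he : {p : (ℕ → ℕ) × (Set.Iio d → Bool) |
        ∀ n, p.1 0 ≤ n → ∀ hn : C d n < d, p.2 ⟨C d n, hn⟩ = false} =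
        ⋂ n : ℕ, ⋂ hn : C d n < d, (fun p : (ℕ → ℕ) × (Set.Iio d → Bool) =>
          ((p.1 0, p.2 ⟨C d n, hn⟩) : ℕ × Bool)) ⁻¹' {q | q.1 ≤ n → q.2 = false} := by
      ext p
      simp only [Set.mem_ofPred_eq, Set.mem_iInter, Set.mem_preimage]
      constructor
      · intro h n hn h1
        exact h n h1 hn
      · intro h n h1 hn
        exact h n hn h1
    rw [he]
    refine isClosed_iInter fun n => isClosed_iInter fun hn => IsClosed.preimage ?_ (isClosed_discrete _)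
    fun_prop
  obtain ⟨g, hg⟩ := hWD (fun d => {z | ∃ w : ℕ → ℕ, (w, z) ∈ {p : (ℕ → ℕ) × (Set.Iio d → Bool) |
      ∀ n, p.1 0 ≤ n → ∀ hn : C d n < d, p.2 ⟨C d n, hn⟩ = false}})
    (fun d => suslin_nat _ (hcl d))
  refine ⟨g, fun h E hE => ?_⟩
  obtain ⟨d, ⟨hdS, hd⟩, hdE, hpos, _⟩ := hg h (E ∩ {d | (∃ a, a < d) ∧ ∀ c, c < d → id c < d})
    (club_inter hE (club_closure id))
  refine ⟨d, ⟨hdS, fun hev => ?_⟩, hdE⟩
  have hlt := hC d hpos
  have hiff : ((fun x : Set.Iio d => h x) ∈ {z : Set.Iio d → Bool | ∃ w : ℕ → ℕ,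
      (w, z) ∈ {p : (ℕ → ℕ) × (Set.Iio d → Bool) |
        ∀ n, p.1 0 ≤ n → ∀ hn : C d n < d, p.2 ⟨C d n, hn⟩ = false}}) ↔
      ∀ᶠ n in Filter.atTop, h (C d n) = false := by
    rw [Filter.eventually_atTop]
    constructor
    · rintro ⟨w, hw⟩
      exact ⟨w 0, fun n hn => hw n hn (hlt n)⟩
    · rintro ⟨N, hN⟩
      exact ⟨fun _ => N, fun n hn _ => hN n hn⟩
  rw [hiff] at hd
  rcases hgd : g d with _ | _
  · rw [hgd] at hd hev
    exact absurd (hd.1 hev) (by decide)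
  · have h1 := hd.2 hgd
    rw [hgd] at hev
    obtain ⟨n, hn1, hn2⟩ := (h1.and hev).exists
    rw [hn1] at hn2
    exact absurd hn2 (by decide)

end Pool.Agent.Helper95.BWD
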