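import Pool.Agent.Helper95.BWD.Club

/-!
# BWD-Press: a pressing down argument

Lemma `press_countable`: for `ξ : Om` the set of pairs `(k, θ)` such that `θ` depends on a finite set of places `≤ ξ` is countable.
Proof: it is the countable union over `k : ℕ` and over the finite subsets `s` of the countable set `Set.Iic ξ`
(`Set.Countable` of `{s : Finset Om | ↑s ⊆ Iic ξ}`: `Set.countable_setOf_finite_subset` transported by `Finset.coe_injective`)
of the finite set of the `θ` with `DepOn θ s` (such a `θ` is determined by the function `(s → Bool) → Bool`,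
`g ↦ θ (g extended by false)`; finite type).

Main lemma. Suppose not: for every `d ∈ X` there is `k d` such that `θ d' (k d) ≠ θ d (k d)` for all `d' ∈ X`, `d' < d`. Then
`d ↦ (k d, θ d (k d))` is injective on `X`. For `ξ` the set `Y ξ = {d ∈ X | ∃ s finite, all elements ≤ ξ, DepOn (θ d (k d)) s}` is mapped
injectively into a countable set (`press_countable`), so it is countable (`Set.Countable.of_injOn` or `Set.MapsTo`), and there is
`b ξ` with `d < b ξ` for all `d ∈ Y ξ` (`bdd`). Take `d ∈ X` in the club `club_closure b` (`hX`). The finite set `s` of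
`hθ d (k d)`: if it is nonempty let `ξ` be its maximum, `ξ < d`; if it is empty let `ξ < d` be arbitrary (exists by the
first part of `club_closure`). Then `d ∈ Y ξ`, so `d < b ξ`, but `b ξ < d`: contradiction.
-/

set_option autoImplicit false

open Cardinal Set

namespace Pool.Agent.Helper95.BWD

private theorem Press_dep_finite (s : Finset Om) :
    {θ : (Om → Bool) → Bool | DepOn θ ↑s}.Finite := by
  classical
  let f : ((Om → Bool) → Bool) → ((↥s → Bool) → Bool) := fun θ g =>
    θ fun x => if hx : x ∈ s then g ⟨x, hx⟩ else false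
  refine Set.Finite.of_injOn (f := f) (t := Set.univ) (fun _ _ => Set.mem_univ _) ?_
    Set.finite_univ
  intro θ hθ θ' hθ' h
  funext a
  have h1 : ∀ x ∈ (↑s : Set Om), a x =
      (fun x => if hx : x ∈ s then (fun y : ↥s => a y) ⟨x, hx⟩ else false) x := by
    intro x hx
    have hx' : x ∈ s := hx
    simp only [hx', dite_true]
  rw [hθ _ _ h1, hθ' _ _ h1]
  exact congrFun h fun y => a y

theorem press_countable (ξ : Om) :
    {q : ℕ × ((Om → Bool) → Bool) |
      ∃ s : Finset Om, (∀ x ∈ s, x ≤ ξ) ∧ DepOn q.2 ↑s}.Countable := by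
  have hS : {s : Finset Om | ∀ x ∈ s, x ≤ ξ}.Countable := by
    have h1 := Set.countable_ofPred_finite_subset (countable_Iic ξ)
    have h2 := h1.preimage_of_injOn (f := fun s : Finset Om => (↑s : Set Om))
      (Finset.coe_injective.injOn)
    refine h2.mono ?_
    intro s hs
    exact ⟨s.finite_toSet, fun x hx => hs x hx⟩
  have hU : (⋃ s ∈ {s : Finset Om | ∀ x ∈ s, x ≤ ξ},
      (Set.univ : Set ℕ) ×ˢ {θ : (Om → Bool) → Bool | DepOn θ ↑s}).Countable :=
    hS.biUnion fun s _ => (Set.countable_univ).prod (Press_dep_finite s).countable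
  refine hU.mono ?_
  rintro ⟨k, θ⟩ ⟨s, hs, hd⟩
  simp only [Set.mem_iUnion]
  exact ⟨s, hs, Set.mem_univ _, hd⟩

theorem press (X : Set Om) (hX : Stationary X) (θ : Om → ℕ → (Om → Bool) → Bool)
    (hθ : ∀ d k, ∃ s : Finset Om, (∀ x ∈ s, x < d) ∧ DepOn (θ d k) ↑s) :
    ∃ d ∈ X, ∀ k, ∃ d' ∈ X, d' < d ∧ θ d' k = θ d k := by
  by_contra hcon
  have h0 : ∀ d, ∃ k, d ∈ X → ∀ d' ∈ X, d' < d → θ d' k ≠ θ d k := by
    intro d
    by_cases hd : d ∈ X
    · by_contra hk
      refine hcon ⟨d, hd, fun k => ?_⟩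
      by_contra hk'
      refine hk ⟨k, fun _ d' hd' hlt he => hk' ⟨d', hd', hlt, he⟩⟩
    · exact ⟨0, fun h => absurd h hd⟩
  choose k hk using h0
  have hinj : Set.InjOn (fun d => (k d, θ d (k d))) X := by
    have key : ∀ d ∈ X, ∀ d' ∈ X, d' < d →
        (fun d => (k d, θ d (k d))) d' ≠ (fun d => (k d, θ d (k d))) d := by
      intro d hd d' hd' hlt he
      have he1 : k d' = k d := congrArg Prod.fst he
      have he2 : θ d' (k d') = θ d (k d) := congrArg Prod.snd he
      rw [he1] at he2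
      exact hk d hd d' hd' hlt he2
    intro d hd d' hd' he
    rcases lt_trichotomy d d' with h | h | h
    · exact absurd he (key d' hd' d hd h)
    · exact h
    · exact absurd he.symm (key d hd d' hd' h)
  have hY : ∀ ξ : Om, {d | d ∈ X ∧ ∃ s : Finset Om, (∀ x ∈ s, x ≤ ξ) ∧
      DepOn (θ d (k d)) ↑s}.Countable := by
    intro ξ
    refine Set.MapsTo.countable_of_injOn (f := fun d => (k d, θ d (k d))) ?_
      (hinj.mono fun d hd => hd.1) (press_countable ξ)
    rintro d ⟨-, s, hs, hd⟩
    exact ⟨s, hs, hd⟩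
  choose b hb using fun ξ => bdd (hY ξ)
  obtain ⟨d, hdX, ⟨a, ha⟩, hcl⟩ := hX _ (club_closure b)
  obtain ⟨s, hs, hdep⟩ := hθ d (k d)
  have hξ : ∃ ξ, ξ < d ∧ ∀ x ∈ s, x ≤ ξ := by
    rcases s.eq_empty_or_nonempty with rfl | hne
    · exact ⟨a, ha, fun x hx => absurd hx (Finset.notMem_empty x)⟩
    · exact ⟨s.max' hne, hs _ (s.max'_mem hne), fun x hx => s.le_max' x hx⟩
  obtain ⟨ξ, hξ1, hξ2⟩ := hξ
  have h1 := hb ξ d ⟨hdX, s, hξ2, hdep⟩
  exact lt_asymm h1 (hcl ξ hξ1)

end Pool.Agent.Helper95.BWD
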