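import Pool.Agent.Helper95.BWD.Window
import Pool.Agent.Helper95.BWD.Press
import Pool.Agent.Helper95.BWD.DS
import Pool.Agent.Helper95.BWD.CorDef

/-!
# BWD-Main: a small everywhere-dominating family implies the weak diamond for `K`-Suslin sets
-/

set_option autoImplicit false

open Cardinal Set

namespace Pool.Agent.Helper95.BWD

theorem mainA (F : Set (Om → ℕ)) (hF : EverywhereDominating F) (hc : #F < 𝔠) (K : Type)
    (hK : cofNum K < 𝔠) (S : Set Om) (hS : Stationary S) : WDK K S := by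
  classical
  intro B hB
  obtain ⟨C, hC, hCc⟩ := cofNum_mem K
  obtain ⟨T, hT, θ, hθ, hdec⟩ := window F hF K C hC B hB
  obtain ⟨Q, hQ, E, hE, hEC⟩ := few_clubs F hF
  by_contra hcon
  push Not at hcon
  -- every `g` is coded
  have hcode : ∀ g : Om → Bool, ∃ h : Om → Bool, ∃ D, IsClub D ∧ ∀ d ∈ S, d ∈ D →
      ((fun x : Set.Iio d => h x) ∈ B d ↔ g d = true) := by
    intro g
    obtain ⟨h, hh⟩ := hcon (fun d => !g d)
    unfold Stationary at hh
    push Not at hh
    obtain ⟨D, hD, hemp⟩ := hh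
    refine ⟨h, D, hD, fun d hd1 hd2 => ?_⟩
    by_contra h3
    have h4 : d ∈ ({d | d ∈ S ∧ ((fun x : Set.Iio d => h x) ∈ B d ↔ (!g d) = true)} ∩ D : Set Om) := by
      refine ⟨⟨hd1, ?_⟩, hd2⟩
      cases hg : g d
      · rw [hg] at h3
        simp only [Bool.not_false, iff_true]
        by_contra h5
        exact h3 ⟨fun h6 => absurd h6 h5, fun h6 => absurd h6 (by simp)⟩
      · rw [hg] at h3
        simp only [Bool.not_true, Bool.false_eq_true, iff_false]
        intro h5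
        exact h3 ⟨fun _ => rfl, fun _ => h5⟩
    rw [hemp] at h4
    exact h4
  -- the diagonal function
  let Ψ : T × Q → (d : Om) → ((d' : Om) → d' < d → ℕ → Bool) → ℕ → Bool := fun p d u k =>
    if hx : ∃ d', ∃ _ : d' < d, d' ∈ S ∧ d' ∈ E p.2 ∧ θ p.1 d' k = θ p.1 d k then
      u hx.choose hx.choose_spec.choose k else false
  have hne : ∀ (d : Om) (u : (d' : Om) → d' < d → ℕ → Bool), ∃ r : ℕ → Bool,
      ∀ p, r ≠ Ψ p d u := by
    intro d u
    by_contra hcon2
    push Not at hcon2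
    have h1 : #(ℕ → Bool) ≤ #(T × Q) := by
      refine mk_le_of_surjective (f := fun p => Ψ p d u) fun r => ?_
      obtain ⟨p, hp⟩ := hcon2 r
      exact ⟨p, hp.symm⟩
    have h2 : #(ℕ → Bool) = 𝔠 := by simp
    rw [h2] at h1
    refine absurd h1 (not_le.2 ?_)
    rw [mk_prod, lift_id, lift_id]
    refine mul_lt_of_lt aleph0_le_continuum (hT.trans_lt (max_lt hc ?_)) (hQ.trans_lt hc)
    rw [hCc]
    exact hK
  choose nx hnx using hne
  let t : Om → ℕ → Bool := wf.fix (fun d u => nx d u)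
  have ht : ∀ d, t d = nx d (fun d' _ => t d') := fun d => wf.fix_eq _ _
  choose H D hD hH using fun k : ℕ => hcode (fun d => t d k)
  obtain ⟨q, hq⟩ := hEC (⋂ k, D k) (club_iInter D hD)
  obtain ⟨τ, hτ⟩ := hdec t H (S ∩ E q)
    (fun d hd k => hH k d hd.1 (Set.mem_iInter.1 (hq hd.2) k))
  obtain ⟨d, hd, hp⟩ := press (S ∩ E q) (hS.inter (hE q)) (θ τ) (hθ τ)
  have hfin : t d = Ψ (τ, q) d (fun d' _ => t d') := by
    funext k
    obtain ⟨d', hd', hlt, he⟩ := hp k
    have hx : ∃ d', ∃ _ : d' < d, d' ∈ S ∧ d' ∈ E (τ, q).2 ∧ θ (τ, q).1 d' k = θ (τ, q).1 d k :=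
      ⟨d', hlt, hd'.1, hd'.2, he⟩
    have hΨ : Ψ (τ, q) d (fun d' _ => t d') k = t hx.choose k := by
      simp only [Ψ]
      rw [dif_pos hx]
    rw [hΨ]
    obtain ⟨h1, h2, h3⟩ := hx.choose_spec.choose_spec
    rw [hτ d hd k, hτ _ ⟨h1, h2⟩ k, h3]
    -- `H k` is decoded by the same function
  exact hnx d _ (τ, q) ((ht d).symm.trans hfin)

theorem mainB (F : Set (Om → ℕ)) (hF : EverywhereDominating F)
    (hc : #F < (2 : Cardinal.{0}) ^ ℵ₁) (K : Type)
    (hK : cofNum K < (2 : Cardinal.{0}) ^ ℵ₁) : WDK K Set.univ := by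
  rcases lt_or_ge (𝔠 : Cardinal.{0}) ((2 : Cardinal.{0}) ^ ℵ₁) with h | h
  · intro B _
    obtain ⟨g, hg⟩ := devlinShelah h B
    exact ⟨g, fun h => (hg h).mono fun d hd => ⟨trivial, hd⟩⟩
  · exact mainA F hF (hc.trans_le h) K (hK.trans_le h) Set.univ stationary_univ

end Pool.Agent.Helper95.BWD
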