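import Pool.Agent.Helper95.BWD.CorDef

/-!
# BWD-NoQ: no set of reals of size `ℵ₁` has all subsets relatively analytic

Let `O m` (`m : ℕ`) enumerate a countable basis of the topology of `(ℕ → ℕ) × Y` (second countable;
`TopologicalSpace.exists_countable_basis` or `TopologicalSpace.countableBasis`, enumerate it, e.g. `Set.Countable.exists_eq_range`),
`V d = {c | ∃ w : ℕ → ℕ, ∀ m, c m = true → (w, x d) ∉ O m}`; `suslin_nat` with the closed set
`R = {(w, c) | ∀ m, c m = true → (w, x d) ∉ O m}` (`isClosed_iInter`/`isClosed_setOf`: for every `m` the complement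
`{(w, c) | c m = true ∧ (w, x d) ∈ O m}` is open). `NotOnto ℕ` gives `X`; the set of the statement is `Xᶜ`. If `Xᶜ = x ⁻¹' A`, `A` analytic,
`A = {y | ∃ w, (w, y) ∈ R₀}` with `R₀` closed (`analytic_suslin`). With `c m = true` iff `Disjoint (O m) R₀` we have
`(w, y) ∈ R₀ ↔ ∀ m, c m = true → (w, y) ∉ O m` (`TopologicalSpace.IsTopologicalBasis`, open complement of `R₀`). So `c ∈ V d ↔ x d ∈ A ↔ d ∉ X` for
all `d`, but a stationary set is nonempty (`club_univ`): some `d` has `c ∈ V d ↔ d ∈ X`, contradiction.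
-/

set_option autoImplicit false

open Cardinal Set

namespace Pool.Agent.Helper95.BWD

theorem noQ (h : NotOnto ℕ) (Y : Type) [TopologicalSpace Y] [T2Space Y]
    [SecondCountableTopology Y] (x : Om → Y) :
    ∃ X : Set Om, ∀ A : Set Y, MeasureTheory.AnalyticSet A → X ≠ x ⁻¹' A := by
  classical
  obtain ⟨b, hbc, -, hb⟩ := TopologicalSpace.exists_countable_basis ((ℕ → ℕ) × Y)
  have hOm : Nonempty Om := inferInstance
  have hbne : b.Nonempty := by
    obtain ⟨d⟩ := hOm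
    obtain ⟨v, hv, -, -⟩ := hb.exists_subset_of_mem_open
      (Set.mem_univ ((fun _ => 0, x d) : (ℕ → ℕ) × Y)) isOpen_univ
    exact ⟨v, hv⟩
  obtain ⟨O, hO⟩ := hbc.exists_eq_range hbne
  have hOo : ∀ m, IsOpen (O m) := fun m => hb.isOpen (hO ▸ Set.mem_range_self m)
  let R : Om → Set ((ℕ → ℕ) × (ℕ → Bool)) := fun d =>
    {p | ∀ m, p.2 m = true → (p.1, x d) ∉ O m}
  have hR : ∀ d, IsClosed (R d) := by
    intro d
    have h1 : R d = ⋂ m, {p : (ℕ → ℕ) × (ℕ → Bool) | p.2 m = true ∧ (p.1, x d) ∈ O m}ᶜ := by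
      ext p
      simp only [R, Set.mem_ofPred_eq, Set.mem_iInter, Set.mem_compl_iff, not_and]
    rw [h1]
    refine isClosed_iInter fun m => ?_
    rw [isClosed_compl_iff]
    have h2 : IsOpen {p : (ℕ → ℕ) × (ℕ → Bool) | p.2 m = true} := by
      have hcont : Continuous fun p : (ℕ → ℕ) × (ℕ → Bool) => p.2 m :=
        (continuous_apply m).comp continuous_snd
      exact (isOpen_discrete ({true} : Set Bool)).preimage hcont
    have h3 : IsOpen {p : (ℕ → ℕ) × (ℕ → Bool) | (p.1, x d) ∈ O m} :=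
      (hOo m).preimage (continuous_fst.prodMk continuous_const)
    exact h2.inter h3
  obtain ⟨X, hX⟩ := h (fun d => {c | ∃ w : ℕ → ℕ, (w, c) ∈ R d})
    (fun d => suslin_nat (R d) (hR d))
  refine ⟨Xᶜ, fun A hA hXA => ?_⟩
  obtain ⟨R₀, hR₀, hAR⟩ := analytic_suslin A hA
  let c : ℕ → Bool := fun m => decide (Disjoint (O m) R₀)
  have hc : ∀ m, c m = true ↔ Disjoint (O m) R₀ := fun m => decide_eq_true_iff
  have key : ∀ p : (ℕ → ℕ) × Y, p ∈ R₀ ↔ ∀ m, c m = true → p ∉ O m := by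
    intro p
    constructor
    · intro hp m hm hpm
      exact Set.disjoint_left.mp ((hc m).mp hm) hpm hp
    · intro hp
      by_contra hne
      obtain ⟨v, hv, hpv, hvs⟩ := hb.exists_subset_of_mem_open
        (show p ∈ R₀ᶜ from hne) hR₀.isOpen_compl
      rw [hO] at hv
      obtain ⟨m, rfl⟩ := hv
      refine hp m ((hc m).mpr ?_) hpv
      exact Set.disjoint_left.mpr fun q hq hq' => hvs hq hq'
  obtain ⟨d, hd, -⟩ := hX c Set.univ club_univ
  have h1 : (c ∈ {c | ∃ w : ℕ → ℕ, (w, c) ∈ R d}) ↔ d ∈ Xᶜ := by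
    rw [hXA, Set.mem_preimage, hAR]
    constructor
    · rintro ⟨w, hw⟩
      exact ⟨w, (key (w, x d)).mpr hw⟩
    · rintro ⟨w, hw⟩
      exact ⟨w, (key (w, x d)).mp hw⟩
  have h2 : (c ∈ {c | ∃ w : ℕ → ℕ, (w, c) ∈ R d}) ↔ d ∈ X := hd
  rw [h2, Set.mem_compl_iff] at h1
  tauto

end Pool.Agent.Helper95.BWD
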