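import Pool.Agent.Helper95.BWD.CorDef

/-!
# BWD-Pseudo: the pseudo-intersection number is `ℵ₁`

Let `a : Om → Set ℕ` be an almost disjoint family of infinite sets: take an injection `ρ` of `Om` into `ℕ → Bool`
(`ℵ₁ ≤ 𝔠`: `Cardinal.aleph_one_le_continuum`, `#(ℕ → Bool) = 𝔠`), `a i = {code (List.ofFn (fun k : Fin n => ρ i k)) | n : ℕ}` with
`code = Encodable.encode : List Bool → ℕ` injective; `a i ∩ a i'` is finite for `i ≠ i'` (if `ρ i k ≠ ρ i' k` then only lists of length `≤ k` can be common).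
Contraposition: suppose every family `b` with all finite intersections infinite has an infinite pseudo-intersection.
Claim (Solovay): for every `X : Set Om` there is `r : Set ℕ` with `(r ∩ a i).Finite` for `i ∉ X`, `(r ∩ a i).Infinite` for `i ∈ X`. Proof: on the
countable type `Finset ℕ` the sets `U i = {s | ∀ x ∈ s, x ∉ a i}` (`i ∉ X`) and `V i n = {s | ∃ x ∈ s, x ∈ a i ∧ n ≤ x}` (`i ∈ X`, `n : ℕ`) have infinite
finite intersections: for a finite set `I` of `i ∉ X`, a finite set `J` of pairs `(j, n)`, `j ∈ X`, and every bound `N` choose for each pair an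
`x ∈ a j` with `x ≥ n`, `x ≥ N` and outside `⋃ i ∈ I, a i` (`a j ∩ a i` finite); `s =` these `x`, together with, if `J` is empty, ... : to get infinitely many `s`
when `J = ∅` use `s = {}`? (only one): avoid this by adding one more pair: replace `X` by itself and treat `X = ∅` separately (`r = ∅`), otherwise fix
`i₀ ∈ X` and use the sets `U i ∩ V i₀ 0`. Then every `s` is nonempty with least element `≥ N`: infinitely many `s`.)
Index: `b (i, n) = U i ∩ V i₀ 0` if `i ∉ X` and `V i n` if `i ∈ X`, transported by a bijection `Om ≃ Om × ℕ` (`Cardinal.eq.1`, `mk_prod`, `mk_Om`,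
`mul_eq_left`) and a bijection `Finset ℕ ≃ ℕ` (`Denumerable.eqv`). If `P` is an infinite pseudo-intersection
let `r = ⋃ s ∈ P, s`. For `i ∉ X`: only finitely many `s ∈ P` meet `a i`, so `r ∩ a i` is finite (a finite union of finite sets). For
`i ∈ X` and each `n` some `s ∈ P` (`P` infinite, `P \ V i n` finite) has an element of `a i` above `n`: `r ∩ a i` is infinite.
Now `V d = {c | ∃ w : ℕ → ℕ, ∀ n ≥ w 0, n ∈ a d → c n = false}` is `ω`-Suslin (`suslin_nat`; closed condition: for every `n` the complement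
`{(w, c) | w 0 ≤ n ∧ n ∈ a d ∧ c n = true}` is open). `NotOnto ℕ` gives `X`. Let `r` be as in the claim for `X`, `c n = true ↔ n ∈ r`:
`c ∈ V d ↔ (r ∩ a d).Finite ↔ d ∉ X` for all `d`. A stationary set is nonempty (`club_univ`): contradiction.
-/

set_option autoImplicit false

open Cardinal Set

namespace Pool.Agent.Helper95.BWD

/-- an injection of `ω₁` into the reals -/
private theorem exists_real : ∃ ρ : Om → (ℕ → Bool), Function.Injective ρ := by
  have h : #Om ≤ #(ℕ → Bool) := by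
    have h1 : #(ℕ → Bool) = 𝔠 := by simp
    rw [mk_Om, h1]
    exact aleph_one_le_continuum
  obtain ⟨ρ⟩ := h
  exact ⟨ρ, ρ.injective⟩

/-- an almost disjoint family -/
private theorem exists_ad : ∃ a : Om → Set ℕ, (∀ i, (a i).Infinite) ∧
    ∀ i j, i ≠ j → (a i ∩ a j).Finite := by
  obtain ⟨ρ, hρ⟩ := exists_real
  let f : Om → ℕ → ℕ := fun i n => Encodable.encode (List.ofFn fun k : Fin n => ρ i k)
  have hlen : ∀ i j n m, f i n = f j m → n = m := by
    intro i j n m h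
    have h1 := Encodable.encode_injective h
    have h2 := congrArg List.length h1
    simpa using h2
  refine ⟨fun i => Set.range (f i), fun i => ?_, fun i j hij => ?_⟩
  · exact Set.infinite_range_of_injective fun n m h => hlen i i n m h
  · obtain ⟨k, hk⟩ : ∃ k, ρ i k ≠ ρ j k := by
      by_contra hcon
      push Not at hcon
      exact hij (hρ (funext hcon))
    refine ((Set.finite_Iic k).image (f i)).subset ?_
    rintro x ⟨⟨n, rfl⟩, ⟨m, hm⟩⟩
    have hnm := hlen j i m n hm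
    subst hnm
    refine ⟨m, ?_, rfl⟩
    by_contra hcon
    have hkm : k < m := not_le.1 hcon
    have h1 := Encodable.encode_injective hm
    have h2 := List.ofFn_injective h1
    exact hk (congrFun h2 ⟨k, hkm⟩).symm

/-- the coding of subsets of `ω₁` by reals (Solovay) -/
private theorem solovay (hH : ∀ b : Om → Set ℕ, (∀ s : Finset Om, (⋂ i ∈ s, b i).Infinite) →
      ∃ P : Set ℕ, P.Infinite ∧ ∀ i, (P \ b i).Finite) (a : Om → Set ℕ)
    (ha : ∀ i, (a i).Infinite) (had : ∀ i j, i ≠ j → (a i ∩ a j).Finite) (X : Set Om) :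
    ∃ r : Set ℕ, (∀ i, i ∉ X → (r ∩ a i).Finite) ∧ ∀ i ∈ X, (r ∩ a i).Infinite := by
  classical
  rcases X.eq_empty_or_nonempty with rfl | ⟨i₀, hi₀⟩
  · exact ⟨∅, fun i _ => by simp, fun i hi => absurd hi (Set.notMem_empty i)⟩
  let B : Om × ℕ → Set (Finset ℕ) := fun p =>
    if p.1 ∈ X then {s | ∃ x ∈ s, x ∈ a p.1 ∧ p.2 ≤ x}
    else {s | (∀ x ∈ s, x ∉ a p.1) ∧ ∃ x ∈ s, x ∈ a i₀}
  have hB1 : ∀ p : Om × ℕ, p.1 ∈ X → B p = {s | ∃ x ∈ s, x ∈ a p.1 ∧ p.2 ≤ x} := fun p hp =>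
    if_pos hp
  have hB2 : ∀ p : Om × ℕ, p.1 ∉ X → B p = {s | (∀ x ∈ s, x ∉ a p.1) ∧ ∃ x ∈ s, x ∈ a i₀} :=
    fun p hp => if_neg hp
  -- finite intersections are infinite
  have hfin : ∀ T : Finset (Om × ℕ), {s | ∀ p ∈ T, s ∈ B p}.Infinite := by
    intro T hT
    obtain ⟨N, hN⟩ : ∃ N, ∀ s, (∀ p ∈ T, s ∈ B p) → ∀ x ∈ s, x < N := by
      have h1 : (⋃ s ∈ {s | ∀ p ∈ T, s ∈ B p}, (↑s : Set ℕ)).Finite :=
        hT.biUnion fun s _ => s.finite_toSet
      obtain ⟨M, hM⟩ := h1.bddAbove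
      exact ⟨M + 1, fun s hs x hx => Nat.lt_succ_of_le (hM (Set.mem_biUnion hs hx))⟩
    have hpick : ∀ p : Om × ℕ, ∃ x, p.1 ∈ X → (x ∈ a p.1 ∧ p.2 ≤ x ∧ N ≤ x ∧
        ∀ q ∈ T, q.1 ∉ X → x ∉ a q.1) := by
      intro p
      by_cases hp : p.1 ∈ X
      · have h1 : ((⋃ q ∈ (↑(T.filter fun q => q.1 ∉ X) : Set (Om × ℕ)), (a p.1 ∩ a q.1)) ∪
            Set.Iio (max p.2 N)).Finite := by
          refine Set.Finite.union (Set.Finite.biUnion (Finset.finite_toSet _) fun q hq => ?_)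
            (Set.finite_Iio _)
          refine had _ _ fun h => ?_
          have h2 : q.1 ∉ X := (Finset.mem_filter.1 (Finset.mem_coe.1 hq)).2
          exact h2 (h ▸ hp)
        obtain ⟨x, hx, hx'⟩ := ((ha p.1).sdiff h1).nonempty
        refine ⟨x, fun _ => ⟨hx, ?_, ?_, fun q hq hqX hxq => ?_⟩⟩
        · by_contra hlt
          exact hx' (Or.inr (lt_of_lt_of_le (not_le.1 hlt) (le_max_left _ _)))
        · by_contra hlt
          exact hx' (Or.inr (lt_of_lt_of_le (not_le.1 hlt) (le_max_right _ _)))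
        · refine hx' (Or.inl (Set.mem_biUnion ?_ ⟨hx, hxq⟩))
          exact Finset.mem_coe.2 (Finset.mem_filter.2 ⟨hq, hqX⟩)
      · exact ⟨0, fun h => absurd h hp⟩
    choose pk hpk using hpick
    let s : Finset ℕ := (insert (i₀, 0) (T.filter fun q => q.1 ∈ X)).image pk
    have hmem : ∀ x ∈ s, ∃ p : Om × ℕ, p.1 ∈ X ∧ pk p = x := by
      intro x hx
      obtain ⟨p, hp, rfl⟩ := Finset.mem_image.1 hx
      refine ⟨p, ?_, rfl⟩
      rcases Finset.mem_insert.1 hp with rfl | h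
      · exact hi₀
      · exact (Finset.mem_filter.1 h).2
    have h0 : pk (i₀, 0) ∈ s := Finset.mem_image_of_mem _ (Finset.mem_insert_self _ _)
    have hs : ∀ p ∈ T, s ∈ B p := by
      intro p hp
      by_cases hpX : p.1 ∈ X
      · rw [hB1 p hpX]
        refine ⟨pk p, Finset.mem_image_of_mem _ (Finset.mem_insert_of_mem
          (Finset.mem_filter.2 ⟨hp, hpX⟩)), (hpk p hpX).1, (hpk p hpX).2.1⟩
      · rw [hB2 p hpX]
        refine ⟨fun x hx => ?_, pk (i₀, 0), h0, (hpk (i₀, 0) hi₀).1⟩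
        obtain ⟨q, hq, rfl⟩ := hmem x hx
        exact (hpk q hq).2.2.2 p hp hpX
    have h1 := hN s hs _ h0
    exact absurd h1 (not_lt.2 (hpk (i₀, 0) hi₀).2.2.1)
  -- transport
  have he1 : Nonempty (Om ≃ Om × ℕ) := by
    refine Cardinal.eq.1 ?_
    rw [mk_prod, lift_id, lift_id, mk_Om, mk_nat]
    exact (mul_eq_left (aleph0_le_aleph 1) (aleph0_le_aleph 1) aleph0_ne_zero).symm
  obtain ⟨e1⟩ := he1
  let e2 : Finset ℕ ≃ ℕ := Denumerable.eqv (Finset ℕ)
  obtain ⟨P, hP, hPb⟩ := hH (fun i => e2 '' B (e1 i)) (by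
    intro T
    have h1 := hfin (T.image e1)
    have h2 : e2 '' {s | ∀ p ∈ T.image e1, s ∈ B p} ⊆ ⋂ i ∈ T, e2 '' B (e1 i) := by
      rintro _ ⟨s, hs, rfl⟩
      refine Set.mem_iInter₂.2 fun i hi => ⟨s, ?_, rfl⟩
      exact hs _ (Finset.mem_image_of_mem _ hi)
    exact (h1.image e2.injective.injOn).mono h2)
  have hP' : (e2 ⁻¹' P).Infinite := by
    have h1 : e2 '' (e2 ⁻¹' P) = P := e2.image_preimage P
    intro hf
    apply hP
    rw [← h1]
    exact hf.image _
  have hPB : ∀ p, (e2 ⁻¹' P \ B p).Finite := by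
    intro p
    have h1 := hPb (e1.symm p)
    rw [e1.apply_symm_apply] at h1
    refine Set.Finite.of_finite_image (f := e2) (h1.subset ?_) e2.injective.injOn
    rintro _ ⟨s, ⟨hs1, hs2⟩, rfl⟩
    refine ⟨hs1, ?_⟩
    rintro ⟨t, ht, hts⟩
    exact hs2 (e2.injective hts ▸ ht)
  refine ⟨{x | ∃ s ∈ e2 ⁻¹' P, x ∈ s}, fun i hi => ?_, fun i hi => ?_⟩
  · have h1 : (⋃ s ∈ (e2 ⁻¹' P \ B (i, 0)), (↑s : Set ℕ)).Finite :=
      (hPB (i, 0)).biUnion fun s _ => s.finite_toSet
    refine h1.subset ?_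
    rintro x ⟨⟨s, hs, hxs⟩, hxa⟩
    refine Set.mem_biUnion (x := s) ⟨hs, fun hsB => ?_⟩ hxs
    rw [hB2 (i, 0) hi] at hsB
    exact hsB.1 x hxs hxa
  · refine Set.infinite_of_forall_exists_gt fun n => ?_
    obtain ⟨s, hs, hs'⟩ := (hP'.sdiff (hPB (i, n + 1))).nonempty
    have hsB : s ∈ B (i, n + 1) := by
      by_contra hcon
      exact hs' ⟨hs, hcon⟩
    rw [hB1 (i, n + 1) hi] at hsB
    obtain ⟨x, hxs, hxa, hx⟩ := hsB
    exact ⟨x, ⟨⟨s, hs, hxs⟩, hxa⟩, hx⟩

theorem pseudo (h : NotOnto ℕ) :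
    ∃ b : Om → Set ℕ, (∀ s : Finset Om, (⋂ i ∈ s, b i).Infinite) ∧
      ¬ ∃ P : Set ℕ, P.Infinite ∧ ∀ i, (P \ b i).Finite := by
  classical
  by_contra hcon
  have hH : ∀ b : Om → Set ℕ, (∀ s : Finset Om, (⋂ i ∈ s, b i).Infinite) →
      ∃ P : Set ℕ, P.Infinite ∧ ∀ i, (P \ b i).Finite := by
    intro b hb
    by_contra hP
    exact hcon ⟨b, hb, hP⟩
  obtain ⟨a, ha, had⟩ := exists_ad
  obtain ⟨X, hX⟩ := h (fun d => {c | ∃ w : ℕ → ℕ, (w, c) ∈
      {q : (ℕ → ℕ) × (ℕ → Bool) | ∀ n, q.1 0 ≤ n → n ∈ a d → q.2 n = false}}) (by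
    intro d
    refine suslin_nat _ ?_
    have h1 : {q : (ℕ → ℕ) × (ℕ → Bool) | ∀ n, q.1 0 ≤ n → n ∈ a d → q.2 n = false} =
        ⋂ n, {q | n ∈ a d → (n < q.1 0 ∨ q.2 n = false)} := by
      ext q
      simp only [Set.mem_ofPred_eq, Set.mem_iInter]
      constructor
      · intro h n hn
        by_cases hlt : n < q.1 0
        · exact Or.inl hlt
        · exact Or.inr (h n (not_lt.1 hlt) hn)
      · intro h n hle hn
        rcases h n hn with h | h
        · exact absurd h (not_lt.2 hle)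
        · exact h
    rw [h1]
    refine isClosed_iInter fun n => ?_
    by_cases hn : n ∈ a d
    · have h2 : {q : (ℕ → ℕ) × (ℕ → Bool) | n ∈ a d → (n < q.1 0 ∨ q.2 n = false)} =
          (fun q => q.1 0) ⁻¹' Set.Ioi n ∪ (fun q => q.2 n) ⁻¹' {false} := by
        ext q
        simp [hn]
      rw [h2]
      refine IsClosed.union ?_ ?_
      · exact (isClosed_discrete _).preimage (by fun_prop)
      · exact (isClosed_discrete _).preimage (by fun_prop)
    · have h2 : {q : (ℕ → ℕ) × (ℕ → Bool) | n ∈ a d → (n < q.1 0 ∨ q.2 n = false)} =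
          Set.univ := by
        ext q
        simp [hn]
      rw [h2]
      exact isClosed_univ)
  obtain ⟨r, hr1, hr2⟩ := solovay hH a ha had X
  obtain ⟨d, hd, -⟩ := hX (fun n => decide (n ∈ r)) Set.univ club_univ
  have key : (∃ w : ℕ → ℕ, ∀ n, w 0 ≤ n → n ∈ a d → decide (n ∈ r) = false) ↔
      (r ∩ a d).Finite := by
    constructor
    · rintro ⟨w, hw⟩
      refine (Set.finite_Iio (w 0)).subset ?_
      rintro n ⟨hn1, hn2⟩
      by_contra hlt
      have := hw n (not_lt.1 hlt) hn2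
      exact (of_decide_eq_false this) hn1
    · intro hf
      obtain ⟨M, hM⟩ := hf.bddAbove
      refine ⟨fun _ => M + 1, fun n hn hna => decide_eq_false fun hnr => ?_⟩
      have h1 : n ≤ M := hM ⟨hnr, hna⟩
      have h2 : M + 1 ≤ n := hn
      omega
  have hd' : (r ∩ a d).Finite ↔ d ∈ X := key.symm.trans hd
  by_cases hdX : d ∈ X
  · exact hr2 d hdX (hd'.2 hdX)
  · exact hdX (hd'.1 (hr1 d hdX))

end Pool.Agent.Helper95.BWD
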