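import Pool.Agent.Helper95.BWD.CorDef

/-!
# BWD-Real: the weak diamond implies `NotOnto`

Let `j : ℕ → Om` be injective (`Infinite.natEmbedding`), `b` with `j n < b` for all `n` (`bdd`). For `d` with `∀ n, j n < d` put
`B d = {z | (fun n => z ⟨j n, _⟩) ∈ V d}` (preimage of a `K`-Suslin set under a continuous map: `R' = ` preimage of `R` under
`(w, z) ↦ (w, fun n => z ⟨j n, _⟩)`), otherwise `B d = ∅` (`suslin_empty`). Get `g`, put `X = {d | g d = true}`. For `c` let
`h (j n) = c n` (`Function.extend j c (fun _ => false)`, `Function.Injective.extend_apply`). For `d > b`: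
`(fun n => h (j n)) = c`, so `h|d ∈ B d ↔ c ∈ V d`. Use `Stationary.inter` with `club_Ioi b` and `Stationary.mono`.
-/

set_option autoImplicit false

open Cardinal Set

namespace Pool.Agent.Helper95.BWD

theorem notOnto (K : Type) (hWD : WDK K Set.univ) : NotOnto K := by
  classical
  intro V hV
  let j : ℕ ↪ Om := Infinite.natEmbedding Om
  obtain ⟨b, hb⟩ := bdd (s := Set.range j) (Set.countable_range _)
  have hb' : ∀ n, j n < b := fun n => hb _ ⟨n, rfl⟩
  let B : ∀ d : Om, Set (Set.Iio d → Bool) := fun d =>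
    if hd : ∀ n, j n < d then {z | (fun n => z ⟨j n, hd n⟩) ∈ V d} else ∅
  have hBd : ∀ (d : Om) (hd : ∀ n, j n < d),
      B d = {z | (fun n => z ⟨j n, hd n⟩) ∈ V d} := fun d hd => dif_pos hd
  have hB : ∀ d, SuslinOver K (B d) := by
    intro d
    by_cases hd : ∀ n, j n < d
    · rw [hBd d hd]
      obtain ⟨R, hR, hVd⟩ := hV d
      let _ : TopologicalSpace K := ⊥
      have hψ : Continuous fun p : (ℕ → K) × (Set.Iio d → Bool) =>
          ((p.1, fun n => p.2 ⟨j n, hd n⟩) : (ℕ → K) × (ℕ → Bool)) :=
        continuous_fst.prodMk (continuous_pi fun n => (continuous_apply _).comp continuous_snd)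
      refine ⟨_, hR.preimage hψ, ?_⟩
      rw [hVd]
      rfl
    · have e : B d = ∅ := dif_neg hd
      rw [e]
      exact suslin_empty K
  obtain ⟨g, hg⟩ := hWD B hB
  refine ⟨{d | g d = true}, fun c => ?_⟩
  have hj : ∀ n, Function.extend j c (fun _ => false) (j n) = c n :=
    fun n => j.injective.extend_apply c _ n
  refine (Stationary.inter (hg (Function.extend j c fun _ => false)) (club_Ioi b)).mono ?_
  rintro d ⟨⟨-, h1⟩, h2⟩
  have hd : ∀ n, j n < d := fun n => (hb' n).trans h2
  rw [hBd d hd] at h1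
  have e2 : (fun n => Function.extend j c (fun _ => false) (j n)) = c := funext hj
  change (fun n => Function.extend j c (fun _ => false) (j n)) ∈ V d ↔ g d = true at h1
  rw [e2] at h1
  exact h1

end Pool.Agent.Helper95.BWD
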