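import Pool.Agent.Helper95.BWD.CorDef

/-!
# BWD-Rel: analytic relations do not code all sets of countable ordinals

As in `NoQ`. Let `O m` (`m : ℕ`) enumerate a countable basis of the topology of `(ℕ → ℕ) × (Y × Y')` (second countable;
`TopologicalSpace.exists_countable_basis`, `Set.Countable.exists_eq_range`), and let `dec : Om → ℕ` be a surjection (a left inverse of
`Infinite.natEmbedding Om`). Put `V d = {c | ∃ w : ℕ → Om, ∀ m, c m = true → (fun n => dec (w (n + 1)), (x d, b (w 0))) ∉ O m}`. It is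
`Om`-Suslin: with `letI : TopologicalSpace Om := ⊥` the set `{(w, c) | ∀ m, c m = true → ... ∉ O m}` is closed, because for every `m` the set
`{(w, c) | c m = true ∧ (fun n => dec (w (n + 1)), (x d, b (w 0))) ∈ O m}` is the intersection of two sets that are preimages of
open sets under continuous maps (`Om` is discrete, so every function out of `Om` is continuous, `continuous_of_discreteTopology`;
`Om` may carry another topology, so give the topology explicitly or state an auxiliary lemma for a type `K` with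
`[TopologicalSpace K] [DiscreteTopology K]`). `NotOnto Om` gives `X`; the set of the statement is `Xᶜ`. If
`Xᶜ = {d | ∃ i, (x d, b i) ∈ G}`, `G` analytic, `G = {y | ∃ w, (w, y) ∈ R₀}` with `R₀` closed (`analytic_suslin`). With `c m = true` iff
`Disjoint (O m) R₀` we have `(w, y) ∈ R₀ ↔ ∀ m, c m = true → (w, y) ∉ O m`. So `c ∈ V d ↔ (∃ i, (x d, b i) ∈ G) ↔ d ∉ X` for all `d`, but a stationary
set is nonempty (`club_univ`): some `d` has `c ∈ V d ↔ d ∈ X`, contradiction.
-/

set_option autoImplicit false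

open Cardinal Set

namespace Pool.Agent.Helper95.BWD

private theorem rel_closed {K Y Y' : Type} [TopologicalSpace K] [DiscreteTopology K]
    [TopologicalSpace Y] [TopologicalSpace Y'] (O : ℕ → Set ((ℕ → ℕ) × (Y × Y')))
    (hO : ∀ m, IsOpen (O m)) (dec : K → ℕ) (b : K → Y') (y : Y) :
    IsClosed {p : (ℕ → K) × (ℕ → Bool) | ∀ m, p.2 m = true →
      ((fun n => dec (p.1 (n + 1))), (y, b (p.1 0))) ∉ O m} := by
  have h1 : {p : (ℕ → K) × (ℕ → Bool) | ∀ m, p.2 m = true →
      ((fun n => dec (p.1 (n + 1))), (y, b (p.1 0))) ∉ O m} =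
      ⋂ m, {p : (ℕ → K) × (ℕ → Bool) | p.2 m = true ∧
        ((fun n => dec (p.1 (n + 1))), (y, b (p.1 0))) ∈ O m}ᶜ := by
    ext p
    simp only [Set.mem_ofPred_eq, Set.mem_iInter, Set.mem_compl_iff, not_and]
  rw [h1]
  refine isClosed_iInter fun m => ?_
  rw [isClosed_compl_iff]
  have h2 : IsOpen {p : (ℕ → K) × (ℕ → Bool) | p.2 m = true} := by
    have hcont : Continuous fun p : (ℕ → K) × (ℕ → Bool) => p.2 m :=
      (continuous_apply m).comp continuous_snd
    exact (isOpen_discrete ({true} : Set Bool)).preimage hcont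
  have hdec : Continuous dec := continuous_of_discreteTopology
  have hb : Continuous b := continuous_of_discreteTopology
  have h4 : Continuous fun p : (ℕ → K) × (ℕ → Bool) => fun n => dec (p.1 (n + 1)) := by
    refine continuous_pi fun n => hdec.comp ?_
    exact (continuous_apply (n + 1)).comp continuous_fst
  have h5 : Continuous fun p : (ℕ → K) × (ℕ → Bool) => b (p.1 0) :=
    hb.comp ((continuous_apply 0).comp continuous_fst)
  have h3 : IsOpen {p : (ℕ → K) × (ℕ → Bool) |
      ((fun n => dec (p.1 (n + 1))), (y, b (p.1 0))) ∈ O m} :=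
    (hO m).preimage (h4.prodMk (continuous_const.prodMk h5))
  exact h2.inter h3

theorem relAnalytic (h : NotOnto Om) (Y Y' : Type) [TopologicalSpace Y] [T2Space Y]
    [SecondCountableTopology Y] [TopologicalSpace Y'] [T2Space Y'] [SecondCountableTopology Y']
    (x : Om → Y) (b : Om → Y') :
    ∃ X : Set Om, ∀ G : Set (Y × Y'), MeasureTheory.AnalyticSet G →
      X ≠ {d | ∃ i, (x d, b i) ∈ G} := by
  classical
  obtain ⟨bb, hbc, -, hb⟩ := TopologicalSpace.exists_countable_basis ((ℕ → ℕ) × (Y × Y'))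
  have hOm : Nonempty Om := inferInstance
  have hbne : bb.Nonempty := by
    obtain ⟨d⟩ := hOm
    obtain ⟨v, hv, -, -⟩ := hb.exists_subset_of_mem_open
      (Set.mem_univ ((fun _ => 0, (x d, b d)) : (ℕ → ℕ) × (Y × Y'))) isOpen_univ
    exact ⟨v, hv⟩
  obtain ⟨O, hO⟩ := hbc.exists_eq_range hbne
  have hOo : ∀ m, IsOpen (O m) := fun m => hb.isOpen (hO ▸ Set.mem_range_self m)
  let emb : ℕ ↪ Om := Infinite.natEmbedding Om
  let dec : Om → ℕ := Function.invFun emb
  have hdec : ∀ n, dec (emb n) = n := Function.leftInverse_invFun emb.injective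
  let V : Om → Set (ℕ → Bool) := fun d =>
    {c | ∃ w : ℕ → Om, ∀ m, c m = true → ((fun n => dec (w (n + 1))), (x d, b (w 0))) ∉ O m}
  obtain ⟨X, hX⟩ := h V (fun d => by
    letI : TopologicalSpace Om := ⊥
    haveI : DiscreteTopology Om := ⟨rfl⟩
    exact ⟨_, rel_closed O hOo dec b (x d), rfl⟩)
  refine ⟨Xᶜ, fun G hG hXG => ?_⟩
  obtain ⟨R₀, hR₀, hGR⟩ := analytic_suslin G hG
  let c : ℕ → Bool := fun m => decide (Disjoint (O m) R₀)
  have hc : ∀ m, c m = true ↔ Disjoint (O m) R₀ := fun m => decide_eq_true_iff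
  have key : ∀ p : (ℕ → ℕ) × (Y × Y'), p ∈ R₀ ↔ ∀ m, c m = true → p ∉ O m := by
    intro p
    constructor
    · intro hp m hm hpm
      exact Set.disjoint_left.mp ((hc m).mp hm) hpm hp
    · intro hp
      by_contra hne
      obtain ⟨v, hv, hpv, hvs⟩ := hb.exists_subset_of_mem_open
        (show p ∈ R₀ᶜ from hne) hR₀.isOpen_compl
      rw [hO] at hv
      obtain ⟨m, rfl⟩ := hv
      refine hp m ((hc m).mpr ?_) hpv
      exact Set.disjoint_left.mpr fun q hq hq' => hvs hq hq'
  obtain ⟨d, hd, -⟩ := hX c Set.univ club_univ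
  have h1 : c ∈ V d ↔ d ∈ Xᶜ := by
    rw [hXG]
    constructor
    · rintro ⟨w, hw⟩
      refine ⟨w 0, ?_⟩
      rw [hGR]
      exact ⟨_, (key _).mpr hw⟩
    · rintro ⟨i, hi⟩
      rw [hGR] at hi
      obtain ⟨w, hw⟩ := hi
      refine ⟨fun n => Nat.casesOn n i fun k => emb (w k), ?_⟩
      have h2 : (fun n => dec ((fun n => Nat.casesOn n i fun k => emb (w k) : ℕ → Om) (n + 1))) =
          w := by
        funext n
        exact hdec (w n)
      intro m hm
      have h3 := (key (w, (x d, b i))).mp hw m hm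
      rw [← h2] at h3
      exact h3
  have h2 : c ∈ V d ↔ d ∈ X := hd
  rw [h2, Set.mem_compl_iff] at h1
  tauto

end Pool.Agent.Helper95.BWD
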