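import Pool.Agent.Helper95.BWD.Main
import Pool.Agent.Helper95.BWD.Union
import Pool.Agent.Helper95.BWD.Real
import Pool.Agent.Helper95.BWD.NoQ
import Pool.Agent.Helper95.BWD.Pseudo
import Pool.Agent.Helper95.BWD.Ladder
import Pool.Agent.Helper95.BWD.Rel
import Pool.Agent.Helper95.BWD.Baum

/-!
# Project BWD (MP_54d188_lc): the proof of `AnalyticWeakDiamond`
-/

set_option autoImplicit false

open Cardinal Set Topology MeasureTheory

namespace Pool.Agent.Helper95.BWD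

/-- **Consequences of a small everywhere-dominating family.** -/
theorem smallFamily (F : Set (Om → ℕ)) (hF : EverywhereDominating F)
    (hc : #F < (2 : Cardinal.{0}) ^ ℵ₁) :
    -- the weak diamond for unions of `ℵ₁` analytic sets
    (∀ B : ∀ d : Om, Om → Set (Set.Iio d → Bool), (∀ d i, AnalyticSet (B d i)) →
      ∃ g : Om → Bool, ∀ h : Om → Bool,
        Stationary {d | (fun x : Set.Iio d => h x) ∈ ⋃ i, B d i ↔ g d = true}) ∧
    -- the pseudo-intersection number is `ℵ₁`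
    (∃ b : Om → Set ℕ, (∀ s : Finset Om, (⋂ i ∈ s, b i).Infinite) ∧
      ¬ ∃ P : Set ℕ, P.Infinite ∧ ∀ i, (P \ b i).Finite) ∧
    -- no `Q`-set of size `ℵ₁`: some subset is not relatively analytic
    (∀ X : Set ℝ, #X = ℵ₁ → ∃ Z ⊆ X, ∀ A : Set ℝ, AnalyticSet A → Z ≠ X ∩ A) ∧
    -- two `ℵ₁`-dense sets of reals which are not isomorphic
    (∃ A B : Set ℝ, (∀ a b : ℝ, a < b → #(A ∩ Set.Ioo a b : Set ℝ) = ℵ₁) ∧
      (∀ a b : ℝ, a < b → #(B ∩ Set.Ioo a b : Set ℝ) = ℵ₁) ∧ IsEmpty (A ≃o B)) ∧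
    -- no uniformization of ladder systems
    ∀ C : Om → ℕ → Om, (∀ d, (∃ a, a < d) → ∀ n, C d n < d) →
      ∃ g : Om → Bool, ∀ h : Om → Bool,
        Stationary {d | ¬ ∀ᶠ n in Filter.atTop, h (C d n) = g d} := by
  have hN : cofNum ℕ ≤ 1 := cofNum_small ℕ (by
    rw [mk_nat]
    exact aleph0_lt_aleph_one.le)
  have hO : cofNum Om ≤ 1 := cofNum_small Om mk_Om.le
  have h2c : (1 : Cardinal.{0}) < (2 : Cardinal.{0}) ^ ℵ₁ :=
    one_lt_aleph0.trans (aleph0_lt_aleph_one.trans (cantor ℵ₁))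
  have hW : ∀ K : Type, cofNum K < (2 : Cardinal.{0}) ^ ℵ₁ → WDK K Set.univ :=
    fun K hK => mainB F hF hc K hK
  have hWN := hW ℕ (hN.trans_lt h2c)
  have hWO := hW Om (hO.trans_lt h2c)
  have hNN := notOnto ℕ hWN
  have hNO := notOnto Om hWO
  refine ⟨fun B hB => ?_, pseudo hNN, fun X hX => ?_, ?_, fun C hC => ?_⟩
  · have hS : ∀ d, SuslinOver Om (⋃ i, B d i) := fun d => by
      apply union_suslin
      intro i
      obtain ⟨R, hR, h⟩ := analytic_suslin (B d i) (hB d i)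
      exact ⟨R, hR, h⟩
    obtain ⟨g, hg⟩ := hWO (fun d => ⋃ i, B d i) hS
    exact ⟨g, fun h => (hg h).mono fun d hd => hd.2⟩
  · have hX' : #Om = #X := by rw [hX, mk_Om]
    obtain ⟨e⟩ := Cardinal.eq.1 hX'
    obtain ⟨Y, hY⟩ := noQ hNN ℝ (fun d => (e d : ℝ))
    refine ⟨(fun d => (e d : ℝ)) '' Y, ?_, fun A hA hZ => hY A hA ?_⟩
    · rintro _ ⟨d, -, rfl⟩
      exact (e d).2
    · ext d
      constructor
      · intro hd
        have h1 : (e d : ℝ) ∈ (fun d => (e d : ℝ)) '' Y := ⟨d, hd, rfl⟩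
        rw [hZ] at h1
        exact h1.2
      · intro hd
        have h1 : (e d : ℝ) ∈ X ∩ A := ⟨(e d).2, hd⟩
        rw [← hZ] at h1
        obtain ⟨d', hd', h2⟩ := h1
        have h3 : e d' = e d := Subtype.ext h2
        rwa [← e.injective h3]
  · refine baum fun x b => ?_
    obtain ⟨X, hX⟩ := relAnalytic hNO ℝ ℝ x b
    exact ⟨X, fun G hG => hX G hG.analyticSet⟩
  · obtain ⟨g, hg⟩ := ladder Set.univ hWN C hC
    exact ⟨g, fun h => (hg h).mono fun d hd => hd.2⟩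

end Pool.Agent.Helper95.BWD
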