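import Pool.Agent.Helper95.BWD.Catch

/-!
# BWD-Window: decoding with finite windows

`restr d h : Set.Iio d → Bool` is the restriction of `h : Om → Bool`.

Lemma `window_closed`: `W : ℕ → Set K` with all `W m` finite, `R` closed in `(ℕ → K) × Z` (`K` discrete). Then
`{z | ∃ w, (∀ m, w m ∈ W m) ∧ (w, z) ∈ R}` is closed. Proof: `letI : TopologicalSpace K := ⊥`,
`haveI : DiscreteTopology K := ⟨rfl⟩`; `Set.pi univ W` is compact (`isCompact_univ_pi`, `Set.Finite.isCompact`), so as a subtype it is a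
`CompactSpace` (`isCompact_iff_compactSpace`), and `isClosedMap_snd_of_compactSpace` is applied to the preimage of `R` under
`(w, z) ↦ (w.1, z)`.

Lemma `window_sep`: `L` closed in `Set.Iio d → Bool`, `y₀ ∉ L`. Then there is `n` such that no `y ∈ L` satisfies
`y x = y₀ x` for all `x : Set.Iio d` with `e d x < n`. Proof: `Lᶜ` is open and contains `y₀`, so by the product topology there is a finite
set `s` of coordinates with: every `y` that agrees with `y₀` on `s` belongs to `Lᶜ` (`isOpen_pi_iff`, and in the discrete space `Bool`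
the open sets contain the value); `n = sup over s of (e d x) + 1`.

Main lemma. Let `(P, lev)` be `catching F hF K C hC`; `T = P × (F as a subtype)`, with a bijection `ψ : Om × ℕ ≃ Om`.
For `τ = (p, f)` put `L τ d k = {z | ∃ w, (∀ m, w m ∈ lev p d k m) ∧ (w, z) ∈ R d}` (`R d` from `hB d`) and
`θ τ d k h = true` iff there is `y ∈ L τ d k` with `y x = h x` for all `x : Set.Iio d` with `e d x < f (ψ (d, k))`. It depends only on the
values at the finitely many `x < d` with `e d x < f (ψ (d, k))` (`A_finite d _`, intersected with `Set.Iio d`; `Set.Finite.toFinset`).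
Given `t, H, X`: for `d ∈ X`, `k` with `t d k = true` there is a witness `w` with `(w, restr d (H k)) ∈ R d`; take
`x d k m = w m` there (if `K` is empty then `R d` is empty, `t d k = false` everywhere and all is trivial: `θ = false`; otherwise an
arbitrary value elsewhere), `p` with `x d k m ∈ lev p d k m`. For `d ∈ X`, `k` with `t d k = false`, `restr d (H k) ∉ L`
(because `L ⊆ B d`), so `window_sep` gives `n d k`; `hF` gives `f ∈ F` with `n d k < f (ψ (d, k))`. Then `t d k = θ (p, f) d k (H k)`.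
`#T ≤ max #F #C`: `mk_prod`, `#F * #F = #F` etc. (`ℵ₀ ≤ #F` from `aleph_one_lt`).
(If `K` is empty: `P` may be empty, so take care: use `T = Option P × F` or treat the case separately with `T = F`.)
-/

set_option autoImplicit false

open Cardinal Set

namespace Pool.Agent.Helper95.BWD

theorem window_closed {K Z : Type} [TopologicalSpace Z] (W : ℕ → Set K) (hW : ∀ m, (W m).Finite)
    (R : Set ((ℕ → K) × Z))
    (hR : letI : TopologicalSpace K := ⊥; IsClosed R) :
    IsClosed {z | ∃ w : ℕ → K, (∀ m, w m ∈ W m) ∧ (w, z) ∈ R} := by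
  letI : TopologicalSpace K := ⊥
  haveI : DiscreteTopology K := ⟨rfl⟩
  have hc : IsCompact (Set.univ.pi W) := isCompact_univ_pi (fun m => (hW m).isCompact)
  haveI : CompactSpace (Set.univ.pi W) := isCompact_iff_compactSpace.mp hc
  have hcont : Continuous (fun p : (Set.univ.pi W) × Z => ((p.1 : ℕ → K), p.2)) := by fun_prop
  have h1 : IsClosed ((fun p : (Set.univ.pi W) × Z => ((p.1 : ℕ → K), p.2)) ⁻¹' R) :=
    IsClosed.preimage hcont hR
  have h2 := isClosedMap_snd_of_compactSpace _ h1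
  convert h2 using 1
  ext z
  constructor
  · rintro ⟨w, hw, hwR⟩
    exact ⟨(⟨w, fun m _ => hw m⟩, z), hwR, rfl⟩
  · rintro ⟨⟨w, z'⟩, hwR, rfl⟩
    exact ⟨w, fun m => w.2 m trivial, hwR⟩

theorem window_sep (d : Om) (L : Set (Set.Iio d → Bool)) (hL : IsClosed L)
    (y₀ : Set.Iio d → Bool) (hy : y₀ ∉ L) :
    ∃ n : ℕ, ∀ y ∈ L, ∃ x : Set.Iio d, e d x < n ∧ y x ≠ y₀ x := by
  obtain ⟨I, u, hu, hsub⟩ := isOpen_pi_iff.mp hL.isOpen_compl y₀ hy
  refine ⟨I.sup (fun x => e d (x : Om)) + 1, fun y hyL => ?_⟩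
  by_contra hcon
  push Not at hcon
  have hmem : y ∈ (I : Set (Set.Iio d)).pi u := by
    intro a ha
    have hle : e d (a : Om) < I.sup (fun x => e d (x : Om)) + 1 :=
      Nat.lt_succ_of_le (Finset.le_sup (f := fun x : Set.Iio d => e d (x : Om)) ha)
    rw [hcon a hle]
    exact (hu a ha).2
  exact hsub hmem hyL

theorem window (F : Set (Om → ℕ)) (hF : EverywhereDominating F) (K : Type)
    (C : Set (Set K)) (hC : CofinalFamily C) (B : ∀ d : Om, Set (Set.Iio d → Bool))
    (hB : ∀ d, SuslinOver K (B d)) :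
    ∃ T : Type, #T ≤ max #F #C ∧ ∃ θ : T → Om → ℕ → (Om → Bool) → Bool,
      (∀ τ d k, ∃ s : Finset Om, (∀ x ∈ s, x < d) ∧ DepOn (θ τ d k) ↑s) ∧
      ∀ (t : Om → ℕ → Bool) (H : ℕ → Om → Bool) (X : Set Om),
        (∀ d ∈ X, ∀ k, (fun x : Set.Iio d => H k x) ∈ B d ↔ t d k = true) →
        ∃ τ, ∀ d ∈ X, ∀ k, t d k = θ τ d k (H k) := by
  classical
  by_cases hK : Nonempty K
  swap
  · have hKe : IsEmpty K := not_nonempty_iff.mp hK
    refine ⟨F, le_max_left _ _, fun _ _ _ _ => false, fun _ _ _ => ⟨∅, by simp, fun _ _ _ => rfl⟩,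
      fun t H X hX => ?_⟩
    obtain ⟨f, hf, -⟩ := hF (fun _ => 0)
    refine ⟨⟨f, hf⟩, fun d hd k => ?_⟩
    by_contra hcon
    have ht : t d k = true := by
      cases h : t d k with
      | true => rfl
      | false => exact absurd h hcon
    have hmem := (hX d hd k).2 ht
    obtain ⟨R, -, hR⟩ := hB d
    rw [hR] at hmem
    obtain ⟨w, -⟩ := hmem
    exact hKe.elim (w 0)
  obtain ⟨κ₀⟩ := hK
  obtain ⟨P, hP, lev, hlev, hcatch⟩ := catching F hF K C hC
  have hB' : ∀ d, ∃ R : Set ((ℕ → K) × (Set.Iio d → Bool)),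
      (letI : TopologicalSpace K := ⊥; IsClosed R) ∧ B d = {z | ∃ w, (w, z) ∈ R} := fun d => hB d
  choose R hRc hRB using hB'
  have hℵ : ℵ₁ < #F := aleph_one_lt F (mod_of_everywhere hF)
  have hψ : Nonempty (Om × ℕ ≃ Om) := by
    rw [← Cardinal.eq, mk_prod, lift_id, lift_id, mk_Om, mk_nat]
    exact mul_eq_left aleph0_lt_aleph_one.le aleph0_lt_aleph_one.le aleph0_ne_zero
  obtain ⟨ψ⟩ := hψ
  set L : P → ∀ d : Om, ℕ → Set (Set.Iio d → Bool) := fun p d k =>
    {z | ∃ w : ℕ → K, (∀ m, w m ∈ lev p d k m) ∧ (w, z) ∈ R d} with hLdef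
  have hLc : ∀ p d k, IsClosed (L p d k) := fun p d k => window_closed _ (hlev p d k) (R d) (hRc d)
  have hLB : ∀ p d k, L p d k ⊆ B d := by
    intro p d k z hz
    rw [hRB d]
    obtain ⟨w, -, hw⟩ := hz
    exact ⟨w, hw⟩
  refine ⟨P × F, ?_, fun τ d k h => decide (∃ y ∈ L τ.1 d k, ∀ x : Set.Iio d,
    e d x < (τ.2 : Om → ℕ) (ψ (d, k)) → y x = h x), ?_, ?_⟩
  · rw [mk_prod, lift_id, lift_id]
    calc #P * #F ≤ max #F #C * max #F #C := mul_le_mul' hP (le_max_left _ _)
      _ = max #F #C := mul_eq_self ((aleph0_lt_aleph_one.le.trans hℵ.le).trans (le_max_left _ _))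
  · intro τ d k
    have hfin : {x : Om | x < d ∧ e d x < (τ.2 : Om → ℕ) (ψ (d, k))}.Finite :=
      (A_finite d ((τ.2 : Om → ℕ) (ψ (d, k)))).subset fun x hx => ⟨hx.1.le, hx.2⟩
    refine ⟨hfin.toFinset, fun x hx => ((Set.Finite.mem_toFinset hfin).1 hx).1, fun h h' hh => ?_⟩
    have key : ∀ x : Set.Iio d, e d x < (τ.2 : Om → ℕ) (ψ (d, k)) → h x = h' x := by
      intro x hx
      apply hh
      rw [Set.Finite.coe_toFinset]
      exact ⟨x.2, hx⟩
    simp only [decide_eq_decide]
    constructor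
    · rintro ⟨y, hy, hyx⟩
      exact ⟨y, hy, fun x hx => (hyx x hx).trans (key x hx)⟩
    · rintro ⟨y, hy, hyx⟩
      exact ⟨y, hy, fun x hx => (hyx x hx).trans (key x hx).symm⟩
  · intro t H X hX
    have hw : ∀ d k, ∃ w : ℕ → K, (d ∈ X → t d k = true →
        (w, (fun x : Set.Iio d => H k x)) ∈ R d) := by
      intro d k
      by_cases h : d ∈ X ∧ t d k = true
      · have hmem := (hX d h.1 k).2 h.2
        rw [hRB d] at hmem
        obtain ⟨w, hw⟩ := hmem
        exact ⟨w, fun _ _ => hw⟩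
      · exact ⟨fun _ => κ₀, fun h1 h2 => absurd ⟨h1, h2⟩ h⟩
    choose x hx using hw
    obtain ⟨p, hp⟩ := hcatch x
    have hn : ∀ d k, ∃ n : ℕ, (d ∈ X → t d k = false → ∀ y ∈ L p d k,
        ∃ x : Set.Iio d, e d x < n ∧ y x ≠ H k x) := by
      intro d k
      by_cases h : d ∈ X ∧ t d k = false
      · have hnot : (fun x : Set.Iio d => H k x) ∉ L p d k := by
          intro hmem
          have := (hX d h.1 k).1 (hLB p d k hmem)
          rw [h.2] at this
          exact absurd this (by decide)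
        obtain ⟨n, hn⟩ := window_sep d (L p d k) (hLc p d k) _ hnot
        exact ⟨n, fun _ _ => hn⟩
      · exact ⟨0, fun h1 h2 => absurd ⟨h1, h2⟩ h⟩
    choose n hn using hn
    obtain ⟨f, hf, hfn⟩ := hF (fun a => n (ψ.symm a).1 (ψ.symm a).2)
    refine ⟨(p, ⟨f, hf⟩), fun d hd k => ?_⟩
    have hlt : n d k < f (ψ (d, k)) := by
      have := hfn (ψ (d, k))
      simpa using this
    cases ht : t d k with
    | true =>
      symm
      rw [decide_eq_true_eq]
      exact ⟨fun x => H k x, ⟨x d k, hp d k, hx d k hd ht⟩, fun _ _ => rfl⟩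
    | false =>
      symm
      rw [decide_eq_false_iff_not]
      rintro ⟨y, hy, hyx⟩
      obtain ⟨z, hz1, hz2⟩ := hn d k hd ht y hy
      exact hz2 (hyx z (hz1.trans hlt))

end Pool.Agent.Helper95.BWD
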